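import Mathlib

/-!
Tree maps on Hilbert spaces and power maps of `ℓ^p(Γ)`; adapted from the starting file
`Pool/Agent/Results/MP_9a6711_an/SmoothSurjection.lean`. New: the derivatives of the tree map
have rank at most one.
-/

set_option autoImplicit false
set_option linter.unusedSectionVars false

open Filter Topology Set MeasureTheory
open scoped ENNReal NNReal ContDiff

namespace Pool.Agent.Y276.SS

universe u v

section Bump

variable {H : Type*} [NormedAddCommGroup H] [InnerProductSpace ℝ H]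

lemma iteratedFDeriv_norm_sq_bound (R : ℝ) (hR : 1 ≤ R) (i : ℕ) (hi : 1 ≤ i) (x : H) (hx : ‖x‖ ≤ R) :
    ‖iteratedFDeriv ℝ i (fun y : H => ‖y‖ ^ 2) x‖ ≤ 2 * R := by
  obtain ⟨B, hB, hnorm⟩ : ∃ B : H →L[ℝ] H →L[ℝ] ℝ, (∀ x y, B x y = 2 * inner ℝ x y) ∧
      ‖B‖ ≤ 2 := by
    have hb : ∀ x y : H, ‖((2 : ℝ) • innerₗ H) x y‖ ≤ 2 * ‖x‖ * ‖y‖ := by
      intro x y
      simp only [LinearMap.smul_apply, innerₗ_apply_apply, smul_eq_mul, norm_mul, Real.norm_ofNat]
      have := norm_inner_le_norm (𝕜 := ℝ) x y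
      linarith
    refine ⟨LinearMap.mkContinuous₂ ((2 : ℝ) • innerₗ H) 2 hb, fun x y => ?_,
      LinearMap.mkContinuous₂_norm_le _ (by norm_num) hb⟩
    simp
  have hfd : fderiv ℝ (fun y : H => ‖y‖ ^ 2) = ⇑B := by
    funext y
    rw [fderiv_norm_sq_apply]
    ext z
    rw [hB]
    simp
  obtain ⟨j, rfl⟩ : ∃ j, i = j + 1 := ⟨i - 1, by omega⟩
  rw [← norm_iteratedFDeriv_fderiv, hfd]
  rcases j with _ | j
  · rw [norm_iteratedFDeriv_zero]
    calc ‖B x‖ ≤ ‖B‖ * ‖x‖ := ContinuousLinearMap.le_opNorm _ _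
      _ ≤ 2 * R := by gcongr
  · rw [← norm_iteratedFDeriv_fderiv]
    have hfd2 : fderiv ℝ ⇑B = fun _ => B := by
      funext y
      exact ContinuousLinearMap.fderiv _
    rw [hfd2]
    rcases j with _ | j
    · rw [norm_iteratedFDeriv_zero]
      linarith
    · rw [iteratedFDeriv_succ_const]
      simp
      linarith

/-- smooth cutoff: one for `u ≤ 1`, zero for `u ≥ 2`. -/
noncomputable def cut (u : ℝ) : ℝ := Real.smoothTransition (2 - u)

lemma cut_contDiff : ContDiff ℝ ∞ cut :=
  Real.smoothTransition.contDiff.comp (contDiff_const.sub contDiff_id)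

lemma cut_one {u : ℝ} (hu : u ≤ 1) : cut u = 1 :=
  Real.smoothTransition.one_of_one_le (by linarith)

lemma cut_zero {u : ℝ} (hu : 2 ≤ u) : cut u = 0 :=
  Real.smoothTransition.zero_of_nonpos (by linarith)

lemma cut_nonneg (u : ℝ) : 0 ≤ cut u := Real.smoothTransition.nonneg _

lemma cut_le_one (u : ℝ) : cut u ≤ 1 := Real.smoothTransition.le_one _

/-- bump of radius `r` around `c`. -/
noncomputable def bump (r : ℝ) (c x : H) : ℝ := cut (‖x - c‖ ^ 2 / r ^ 2)

lemma bump_eq (r : ℝ) (c : H) : bump r c = fun x => bump r 0 (x - c) := by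
  funext x; simp [bump]

lemma bump_contDiff (r : ℝ) (c : H) : ContDiff ℝ ∞ (bump r c) := by
  unfold bump
  exact cut_contDiff.comp (((contDiff_id.sub contDiff_const).norm_sq ℝ).div_const _)

lemma bump_one {r : ℝ} (hr : 0 < r) {c x : H} (h : ‖x - c‖ ≤ r) : bump r c x = 1 := by
  refine cut_one ?_
  rw [div_le_one (by positivity)]
  gcongr

lemma bump_ne_zero {r : ℝ} (hr : 0 < r) {c x : H} (h : bump r c x ≠ 0) : ‖x - c‖ < 2 * r := by
  by_contra hcon
  push Not at hcon
  apply h
  refine cut_zero ?_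
  rw [le_div_iff₀ (by positivity)]
  have h0 := norm_nonneg (x - c)
  nlinarith

lemma bump_nonneg (r : ℝ) (c x : H) : 0 ≤ bump r c x := cut_nonneg _
lemma bump_le_one (r : ℝ) (c x : H) : bump r c x ≤ 1 := cut_le_one _

/-- all derivatives of the bump are bounded, uniformly in the center. -/
lemma bump_bound (r : ℝ) (hr : 0 < r) (k : ℕ) :
    ∃ C : ℝ, 0 ≤ C ∧ ∀ c x : H, ‖iteratedFDeriv ℝ k (bump r c) x‖ ≤ C := by
  -- bounds for derivatives of `cut` on `[0, 4]`
  have h1 : ∀ i : ℕ, ∃ M : ℝ, ∀ u ∈ Icc (0 : ℝ) 4, ‖iteratedFDeriv ℝ i cut u‖ ≤ M := fun i =>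
    isCompact_Icc.exists_bound_of_continuousOn
      ((cut_contDiff.continuous_iteratedFDeriv (m := i) (mod_cast le_top)).continuousOn)
  choose M hM using h1
  set C0 : ℝ := ∑ i ∈ Finset.range (k + 1), |M i| with hC0
  have hC0n : 0 ≤ C0 := Finset.sum_nonneg fun i _ => abs_nonneg _
  set R : ℝ := max 1 (2 * r) with hRdef
  set D : ℝ := max 1 (2 * R / r ^ 2) with hDdef
  have hR1 : 1 ≤ R := le_max_left _ _
  have hD1 : 1 ≤ D := le_max_left _ _
  refine ⟨k.factorial * C0 * D ^ k, by positivity, fun c x => ?_⟩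
  rw [bump_eq, iteratedFDeriv_comp_sub']
  show ‖iteratedFDeriv ℝ k (bump r 0) (x - c)‖ ≤ _
  generalize x - c = y
  by_cases hy : ‖y‖ ≤ 2 * r
  · have hcomp : bump r (0 : H) = cut ∘ (fun y : H => (1 / r ^ 2) • ‖y‖ ^ 2) := by
      funext z
      simp only [bump, Function.comp, sub_zero, smul_eq_mul]
      congr 1
      ring
    rw [hcomp]
    have hf : ContDiff ℝ ∞ (fun y : H => (1 / r ^ 2) • ‖y‖ ^ 2) :=
      (contDiff_const (c := (1 / r ^ 2 : ℝ))).smul (contDiff_norm_sq ℝ (E := H))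
    refine norm_iteratedFDeriv_comp_le (N := ∞) cut_contDiff hf (mod_cast le_top) y ?_ ?_
    · intro i hi
      have hmem : (fun y : H => (1 / r ^ 2) • ‖y‖ ^ 2) y ∈ Icc (0 : ℝ) 4 := by
        constructor
        · simp only [smul_eq_mul]; positivity
        · simp only [smul_eq_mul]
          rw [one_div, inv_mul_le_iff₀ (by positivity)]
          have := norm_nonneg y
          nlinarith
      calc ‖iteratedFDeriv ℝ i cut ((fun y : H => (1 / r ^ 2) • ‖y‖ ^ 2) y)‖ ≤ M i := hM i _ hmem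
        _ ≤ |M i| := le_abs_self _
        _ ≤ C0 := Finset.single_le_sum (f := fun i => |M i|) (fun i _ => abs_nonneg _)
            (Finset.mem_range.2 (by omega))
    · intro i hi1 hik
      rw [iteratedFDeriv_const_smul_apply' ((contDiff_norm_sq ℝ).contDiffAt), norm_smul]
      have h2 := iteratedFDeriv_norm_sq_bound R hR1 i hi1 y (hy.trans (le_max_right _ _))
      calc ‖1 / r ^ 2‖ * ‖iteratedFDeriv ℝ i (fun y : H => ‖y‖ ^ 2) y‖
          ≤ (1 / r ^ 2) * (2 * R) := by
            rw [Real.norm_of_nonneg (by positivity)]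
            gcongr
        _ = 2 * R / r ^ 2 := by ring
        _ ≤ D := le_max_right _ _
        _ ≤ D ^ i := le_self_pow₀ hD1 (by omega)
  · push Not at hy
    have hev : bump r (0 : H) =ᶠ[𝓝 y] fun _ => (0 : ℝ) := by
      have hopen : IsOpen {z : H | 2 * r < ‖z‖} := isOpen_lt continuous_const continuous_norm
      filter_upwards [hopen.mem_nhds hy] with z hz
      by_contra h
      have := bump_ne_zero hr h
      rw [sub_zero] at this
      exact absurd this (not_lt.2 (le_of_lt hz))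
    rw [hev.iteratedFDeriv ℝ k |>.eq_of_nhds]
    rw [iteratedFDeriv_fun_zero]
    simp only [Pi.zero_apply, norm_zero]
    positivity

end Bump


section TreeMap

variable {H : Type u} [NormedAddCommGroup H] [InnerProductSpace ℝ H]

lemma exists_eps (q : ℝ) (hq : 0 < q) :
    ∃ ε : ℕ → ℝ, (∀ n, 0 < ε n) ∧ Antitone ε ∧ Tendsto ε atTop (𝓝 0) ∧
      ∀ k n : ℕ, k ≤ n → ∀ c x : H,
        ‖iteratedFDeriv ℝ k (bump (q ^ n / 8) c) x‖ * ε n ≤ (1 / 2) ^ n := by
  have h := fun k n : ℕ => bump_bound (H := H) (q ^ n / 8) (by positivity) k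
  choose C hC0 hC using h
  set M : ℕ → ℝ := fun n => 1 + ∑ m ∈ Finset.range (n + 1), ∑ k ∈ Finset.range (m + 1), C k m
    with hM
  have hMmono : Monotone M := by
    refine monotone_nat_of_le_succ fun n => ?_
    simp only [hM]
    rw [Finset.sum_range_succ _ (n + 1)]
    have : 0 ≤ ∑ k ∈ Finset.range (n + 1 + 1), C k (n + 1) :=
      Finset.sum_nonneg fun i _ => hC0 _ _
    linarith
  have hM1 : ∀ n, 1 ≤ M n := by
    intro n
    simp only [hM]
    have : 0 ≤ ∑ m ∈ Finset.range (n + 1), ∑ k ∈ Finset.range (m + 1), C k m :=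
      Finset.sum_nonneg fun i _ => Finset.sum_nonneg fun j _ => hC0 _ _
    linarith
  have hMC : ∀ k n, k ≤ n → C k n ≤ M n := by
    intro k n hkn
    have h1 : C k n ≤ ∑ k ∈ Finset.range (n + 1), C k n :=
      Finset.single_le_sum (f := fun k => C k n) (fun i _ => hC0 _ _)
        (Finset.mem_range.2 (by omega))
    have h2 : ∑ k ∈ Finset.range (n + 1), C k n
        ≤ ∑ m ∈ Finset.range (n + 1), ∑ k ∈ Finset.range (m + 1), C k m :=
      Finset.single_le_sum (f := fun m => ∑ k ∈ Finset.range (m + 1), C k m)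
        (fun i _ => Finset.sum_nonneg fun j _ => hC0 _ _) (Finset.mem_range.2 (by omega))
    simp only [hM]
    linarith
  refine ⟨fun n => (1 / 2) ^ n / M n, fun n => ?_, ?_, ?_, ?_⟩
  · have := hM1 n
    positivity
  · intro m n hmn
    have h1 := hM1 m
    have h2 := hMmono hmn
    show (1 / 2 : ℝ) ^ n / M n ≤ (1 / 2) ^ m / M m
    have h3 : (1 / 2 : ℝ) ^ n ≤ (1 / 2) ^ m :=
      pow_le_pow_of_le_one (by norm_num) (by norm_num) hmn
    gcongr
  · refine squeeze_zero (fun n => ?_) (fun n => ?_)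
      (tendsto_pow_atTop_nhds_zero_of_lt_one (r := (1 / 2 : ℝ)) (by norm_num) (by norm_num))
    · have := hM1 n
      positivity
    · have := hM1 n
      exact div_le_self (by positivity) this
  · intro k n hkn c x
    have h1 := hC k n c x
    have h2 := hMC k n hkn
    have h3 := hM1 n
    calc ‖iteratedFDeriv ℝ k (bump (q ^ n / 8) c) x‖ * ((1 / 2) ^ n / M n)
        ≤ M n * ((1 / 2) ^ n / M n) := by
          gcongr
          exact h1.trans h2
      _ = (1 / 2) ^ n := by field_simp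

variable {Γ : Type v} {F : Type*} [NormedAddCommGroup F] [NormedSpace ℝ F]

/-- bump attached to a node -/
noncomputable def nodeBump (P : List Γ → H) (q : ℝ) (t : List Γ) (x : H) : ℝ :=
  bump (q ^ t.length / 8) (P t) x

open Classical in
/-- level-`n` part of the tree map. -/
noncomputable def level (P : List Γ → H) (q : ℝ) (Y : List Γ → F) (n : ℕ) (x : H) : F :=
  if h : ∃ t : List Γ, t.length = n ∧ nodeBump P q t x ≠ 0 then
    nodeBump P q h.choose x • (Y h.choose - Y h.choose.tail)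
  else 0

variable {P : List Γ → H} {q : ℝ} {Y : List Γ → F}

lemma nodeBump_ne_zero (hq : 0 < q) {t : List Γ} {x : H} (h : nodeBump P q t x ≠ 0) :
    ‖x - P t‖ < q ^ t.length / 4 := by
  have := bump_ne_zero (by positivity) h
  linarith

lemma nodeBump_one (hq : 0 < q) {t : List Γ} {x : H} (h : ‖x - P t‖ ≤ q ^ t.length / 8) :
    nodeBump P q t x = 1 := bump_one (by positivity) h

/-- near `x` at most one node of level `n` is active. -/
lemma exists_node [Nonempty Γ] (hq : 0 < q)
    (hsep : ∀ s t : List Γ, s ≠ t → s.length = t.length → q ^ s.length ≤ ‖P s - P t‖)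
    (n : ℕ) (x : H) :
    ∃ t : List Γ, t.length = n ∧ ∀ x' ∈ Metric.ball x (q ^ n / 8), ∀ t' : List Γ, t'.length = n →
      nodeBump P q t' x' ≠ 0 → t' = t := by
  by_cases h : ∃ t : List Γ, t.length = n ∧ ∃ x' ∈ Metric.ball x (q ^ n / 8),
      nodeBump P q t x' ≠ 0
  · obtain ⟨t, ht, x₁, hx₁, h1⟩ := h
    refine ⟨t, ht, fun x₂ hx₂ t' ht' h2 => ?_⟩
    by_contra hne
    have h3 := hsep t' t hne (by rw [ht, ht'])
    have h4 := nodeBump_ne_zero hq h1
    have h5 := nodeBump_ne_zero hq h2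
    rw [ht] at h4
    rw [ht'] at h5 h3
    rw [Metric.mem_ball, dist_eq_norm] at hx₁ hx₂
    have h6 : ‖P t' - P t‖ ≤ ‖x₂ - P t'‖ + ‖x₂ - x‖ + ‖x₁ - x‖ + ‖x₁ - P t‖ := by
      have : P t' - P t = -(x₂ - P t') + (x₂ - x) - (x₁ - x) + (x₁ - P t) := by abel
      rw [this]
      refine (norm_add_le _ _).trans ?_
      gcongr
      refine (norm_sub_le _ _).trans ?_
      gcongr
      refine (norm_add_le _ _).trans ?_
      rw [norm_neg]
    have h7 : 0 < q ^ n := by positivity
    linarith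
  · push Not at h
    obtain ⟨γ⟩ := ‹Nonempty Γ›
    refine ⟨List.replicate n γ, List.length_replicate, fun x' hx' t' ht' h2 => ?_⟩
    exact absurd (h t' ht' x' hx') h2

/-- the level function, when the active node is known -/
lemma level_eq_of_unique {n : ℕ} {x : H} {t : List Γ} (ht : t.length = n)
    (hu : ∀ t' : List Γ, t'.length = n → nodeBump P q t' x ≠ 0 → t' = t) :
    level P q Y n x = nodeBump P q t x • (Y t - Y t.tail) := by
  unfold level
  split_ifs with h
  · have := hu h.choose h.choose_spec.1 h.choose_spec.2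
    rw [this]
  · push Not at h
    rw [h t ht, zero_smul]

lemma level_eventuallyEq [Nonempty Γ] (hq : 0 < q)
    (hsep : ∀ s t : List Γ, s ≠ t → s.length = t.length → q ^ s.length ≤ ‖P s - P t‖)
    (n : ℕ) (x : H) :
    ∃ t : List Γ, t.length = n ∧
      level P q Y n =ᶠ[𝓝 x] fun x' => nodeBump P q t x' • (Y t - Y t.tail) := by
  obtain ⟨t, ht, hu⟩ := exists_node hq hsep n x
  refine ⟨t, ht, ?_⟩
  filter_upwards [Metric.ball_mem_nhds x (show 0 < q ^ n / 8 by positivity)] with x' hx'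
  exact level_eq_of_unique ht fun t' ht' h => hu x' hx' t' ht' h

lemma contDiff_node (t : List Γ) (w : F) : ContDiff ℝ ∞ fun x' => nodeBump P q t x' • w :=
  (bump_contDiff _ _).smul contDiff_const

lemma level_contDiff [Nonempty Γ] (hq : 0 < q)
    (hsep : ∀ s t : List Γ, s ≠ t → s.length = t.length → q ^ s.length ≤ ‖P s - P t‖)
    (n : ℕ) : ContDiff ℝ ∞ (level P q Y n) := by
  rw [contDiff_iff_contDiffAt]
  intro x
  obtain ⟨t, ht, hev⟩ := level_eventuallyEq (Y := Y) hq hsep n x
  exact ((contDiff_node t _).contDiffAt).congr_of_eventuallyEq hev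

lemma level_bound [Nonempty Γ] (hq : 0 < q)
    (hsep : ∀ s t : List Γ, s ≠ t → s.length = t.length → q ^ s.length ≤ ‖P s - P t‖)
    (ε : ℕ → ℝ)
    (hε : ∀ k n : ℕ, k ≤ n → ∀ c x : H,
        ‖iteratedFDeriv ℝ k (bump (q ^ n / 8) c) x‖ * ε n ≤ (1 / 2) ^ n)
    {k n : ℕ} (hkn : k ≤ n) (hY : ∀ t : List Γ, t.length = n → ‖Y t - Y t.tail‖ ≤ ε n) (x : H) :
    ‖iteratedFDeriv ℝ k (level P q Y n) x‖ ≤ (1 / 2) ^ n := by
  obtain ⟨t, ht, hev⟩ := level_eventuallyEq (Y := Y) hq hsep n x
  rw [(hev.iteratedFDeriv ℝ k).eq_of_nhds]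
  set w : F := Y t - Y t.tail with hw
  have h1 : (fun x' => nodeBump P q t x' • w)
      = fun x' => (ContinuousLinearMap.toSpanSingleton ℝ w) (nodeBump P q t x') := by
    funext x'
    rw [ContinuousLinearMap.toSpanSingleton_apply]
  rw [h1]
  have h2 : ContDiffAt ℝ ∞ (nodeBump P q t) x := (bump_contDiff _ _).contDiffAt
  refine (ContinuousLinearMap.norm_iteratedFDeriv_comp_left _ h2 (mod_cast le_top)).trans ?_
  rw [ContinuousLinearMap.norm_toSpanSingleton, mul_comm]
  have h3 := hε k n hkn (P t) x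
  have h4 : nodeBump P q t = bump (q ^ n / 8) (P t) := by
    funext y; rw [nodeBump, ht]
  rw [h4]
  refine le_trans ?_ h3
  gcongr
  exact hY t ht

lemma node_unique [Nonempty Γ] (hq : 0 < q)
    (hsep : ∀ s t : List Γ, s ≠ t → s.length = t.length → q ^ s.length ≤ ‖P s - P t‖)
    {x : H} {s t : List Γ} (hst : s.length = t.length) (hs : nodeBump P q s x ≠ 0)
    (ht : nodeBump P q t x ≠ 0) : s = t := by
  obtain ⟨u, hu, huu⟩ := exists_node hq hsep s.length x
  have hx : x ∈ Metric.ball x (q ^ s.length / 8) := Metric.mem_ball_self (by positivity)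
  rw [huu x hx s rfl hs, huu x hx t hst.symm ht]

lemma node_nest (hq : 0 < q) (hq1 : q ≤ 1 / 16)
    (hstep : ∀ (a : Γ) (s : List Γ), ‖P (a :: s) - P s‖ ≤ q ^ (s.length + 1))
    {x : H} {a : Γ} {s : List Γ} (h : nodeBump P q (a :: s) x ≠ 0) : nodeBump P q s x = 1 := by
  refine nodeBump_one hq ?_
  have h1 := nodeBump_ne_zero hq h
  have h2 := hstep a s
  have h3 : ‖x - P s‖ ≤ ‖x - P (a :: s)‖ + ‖P (a :: s) - P s‖ := by
    have : x - P s = (x - P (a :: s)) + (P (a :: s) - P s) := by abel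
    rw [this]
    exact norm_add_le _ _
  rw [List.length_cons] at h1
  have h4 : 0 < q ^ s.length := by positivity
  have h5 : q ^ (s.length + 1) ≤ q ^ s.length * (1 / 16) := by
    rw [pow_succ]
    gcongr
  linarith

lemma sum_level [Nonempty Γ] (hq : 0 < q) (hq1 : q ≤ 1 / 16)
    (hsep : ∀ s t : List Γ, s ≠ t → s.length = t.length → q ^ s.length ≤ ‖P s - P t‖)
    (hstep : ∀ (a : Γ) (s : List Γ), ‖P (a :: s) - P s‖ ≤ q ^ (s.length + 1))
    (hY0 : Y [] = 0) {x : H} :
    ∀ t : List Γ, nodeBump P q t x ≠ 0 → ∑ n ∈ Finset.range t.length, level P q Y n x = Y t.tail := by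
  intro t
  induction t with
  | nil => intro _; simp [hY0]
  | cons a s ih =>
    intro h
    have h1 := node_nest hq hq1 hstep h
    rw [List.length_cons, Finset.sum_range_succ, ih (by rw [h1]; norm_num), List.tail_cons,
      level_eq_of_unique (t := s) rfl
        (fun t' ht' h' => node_unique hq hsep ht' h' (by rw [h1]; norm_num)), h1, one_smul]
    abel

lemma node_anc [Nonempty Γ] (hq : 0 < q) (hq1 : q ≤ 1 / 16)
    (hstep : ∀ (a : Γ) (s : List Γ), ‖P (a :: s) - P s‖ ≤ q ^ (s.length + 1)) {x : H} :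
    ∀ t : List Γ, nodeBump P q t x ≠ 0 → ∀ n < t.length,
      ∃ s : List Γ, s.length = n ∧ nodeBump P q s x = 1 := by
  intro t
  induction t with
  | nil => intro _ n hn; simp at hn
  | cons a s ih =>
    intro h n hn
    have h1 := node_nest hq hq1 hstep h
    rw [List.length_cons] at hn
    rcases Nat.lt_succ_iff_lt_or_eq.1 hn with h2 | h2
    · exact ih (by rw [h1]; norm_num) n h2
    · exact ⟨s, h2.symm, h1⟩

/-- at every point all node bumps but those of one level take the values `0` and `1` only -/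
lemma one_level [Nonempty Γ] (hq : 0 < q) (hq1 : q ≤ 1 / 16)
    (hsep : ∀ s t : List Γ, s ≠ t → s.length = t.length → q ^ s.length ≤ ‖P s - P t‖)
    (hstep : ∀ (a : Γ) (s : List Γ), ‖P (a :: s) - P s‖ ≤ q ^ (s.length + 1)) (x : H) :
    ∃ M : ℕ, ∀ t : List Γ, t.length ≠ M → nodeBump P q t x = 0 ∨ nodeBump P q t x = 1 := by
  by_cases hH : ∃ t : List Γ, nodeBump P q t x ≠ 0 ∧ nodeBump P q t x ≠ 1
  · obtain ⟨t, h0, h1⟩ := hH
    refine ⟨t.length, fun t' ht' => ?_⟩
    by_contra hcon
    push Not at hcon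
    rcases lt_or_gt_of_ne ht' with h | h
    · obtain ⟨s, hs, hs1⟩ := node_anc hq hq1 hstep t h0 _ h
      have h2 := node_unique hq hsep hs (by rw [hs1]; norm_num) hcon.1
      rw [h2] at hs1
      exact hcon.2 hs1
    · obtain ⟨s, hs, hs1⟩ := node_anc hq hq1 hstep t' hcon.1 _ h
      have h2 := node_unique hq hsep hs (by rw [hs1]; norm_num) h0
      rw [h2] at hs1
      exact h1 hs1
  · push Not at hH
    refine ⟨0, fun t' _ => ?_⟩
    by_cases h : nodeBump P q t' x = 0
    · exact Or.inl h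
    · exact Or.inr (hH t' h)

lemma level_fderiv_rank [Nonempty Γ] (hq : 0 < q)
    (hsep : ∀ s t : List Γ, s ≠ t → s.length = t.length → q ^ s.length ≤ ‖P s - P t‖)
    (n : ℕ) (x : H) : ∃ w : F, ∀ h, ∃ c : ℝ, fderiv ℝ (level P q Y n) x h = c • w := by
  obtain ⟨t, ht, hev⟩ := level_eventuallyEq (Y := Y) hq hsep n x
  refine ⟨Y t - Y t.tail, fun h => ⟨fderiv ℝ (nodeBump P q t) x h, ?_⟩⟩
  have hd : DifferentiableAt ℝ (nodeBump P q t) x :=
    ((bump_contDiff _ _).differentiable (by simp)).differentiableAt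
  rw [hev.fderiv_eq, fderiv_smul_const hd, ContinuousLinearMap.smulRight_apply]

lemma level_fderiv_zero [Nonempty Γ] (hq : 0 < q)
    (hsep : ∀ s t : List Γ, s ≠ t → s.length = t.length → q ^ s.length ≤ ‖P s - P t‖)
    (n : ℕ) (x : H)
    (h01 : ∀ t : List Γ, t.length = n → nodeBump P q t x = 0 ∨ nodeBump P q t x = 1) :
    fderiv ℝ (level P q Y n) x = 0 := by
  obtain ⟨t, ht, hev⟩ := level_eventuallyEq (Y := Y) hq hsep n x
  have hd : DifferentiableAt ℝ (nodeBump P q t) x :=
    ((bump_contDiff _ _).differentiable (by simp)).differentiableAt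
  have h0 : fderiv ℝ (nodeBump P q t) x = 0 := by
    rcases h01 t ht with h | h
    · have hmin : IsLocalMin (nodeBump P q t) x :=
        Eventually.of_forall fun y => by rw [h]; exact bump_nonneg _ _ _
      exact hmin.fderiv_eq_zero
    · have hmax : IsLocalMax (nodeBump P q t) x :=
        Eventually.of_forall fun y => by rw [h]; exact bump_le_one _ _ _
      exact hmax.fderiv_eq_zero
  rw [hev.fderiv_eq, fderiv_smul_const hd, h0]
  ext h
  simp

/-- The tree map theorem. -/
theorem tree_map [Nonempty Γ] [CompleteSpace F] (hq : 0 < q) (hq1 : q ≤ 1 / 16)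
    (hsep : ∀ s t : List Γ, s ≠ t → s.length = t.length → q ^ s.length ≤ ‖P s - P t‖)
    (hstep : ∀ (a : Γ) (s : List Γ), ‖P (a :: s) - P s‖ ≤ q ^ (s.length + 1))
    (ε : ℕ → ℝ)
    (hε : ∀ k n : ℕ, k ≤ n → ∀ c x : H,
        ‖iteratedFDeriv ℝ k (bump (q ^ n / 8) c) x‖ * ε n ≤ (1 / 2) ^ n)
    (hY0 : Y [] = 0)
    (hY : ∀ (a : Γ) (s : List Γ), 2 ≤ s.length → ‖Y (a :: s) - Y s‖ ≤ ε (s.length + 1)) :
    ∃ g : H → F, ContDiff ℝ ∞ g ∧
      (∀ (z : ℕ → Γ) (x : H), (∀ n, ‖x - P (PiNat.res z n)‖ ≤ q ^ n / 8) →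
        ∀ y : F, Tendsto (fun n => Y (PiNat.res z n)) atTop (𝓝 y) → g x = y) ∧
      (∀ x : H, (∃ (s : List Γ) (a : Γ), g x ∈ segment ℝ (Y s) (Y (a :: s))) ∨
        ∃ z : ℕ → Γ, (∀ n, ‖x - P (PiNat.res z n)‖ < q ^ n / 4) ∧
          Tendsto (fun n => Y (PiNat.res z n)) atTop (𝓝 (g x))) ∧
      ∀ x : H, ∃ w : F, ∀ h, ∃ c : ℝ, fderiv ℝ g x h = c • w := by
  have hY' : ∀ n, 3 ≤ n → ∀ t : List Γ, t.length = n → ‖Y t - Y t.tail‖ ≤ ε n := by
    intro n hn t ht
    match t, ht with
    | [], ht => simp at ht; omega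
    | a :: s, ht =>
      rw [List.length_cons] at ht
      rw [List.tail_cons, ← ht]
      exact hY a s (by omega)
  have hbound : ∀ k n : ℕ, k ≤ n → 3 ≤ n → ∀ x : H,
      ‖iteratedFDeriv ℝ k (level P q Y n) x‖ ≤ (1 / 2) ^ n :=
    fun k n hkn hn x => level_bound hq hsep ε hε hkn (hY' n hn) x
  have hsummable : ∀ x : H, Summable fun n => level P q Y n x := by
    intro x
    refine Summable.of_norm_bounded_eventually_nat (g := fun n => (1 / 2 : ℝ) ^ n)
      (summable_geometric_of_lt_one (by norm_num) (by norm_num)) ?_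
    filter_upwards [eventually_ge_atTop 3] with n hn
    have := hbound 0 n (by omega) hn x
    rwa [norm_iteratedFDeriv_zero] at this
  have htend : ∀ x : H, Tendsto (fun N => ∑ n ∈ Finset.range N, level P q Y n x) atTop
      (𝓝 (∑' n, level P q Y n x)) := fun x => (hsummable x).hasSum.tendsto_sum_nat
  refine ⟨fun x => ∑' n, level P q Y n x, ?_, ?_, ?_, ?_⟩
  · refine contDiff_tsum_of_eventually (v := fun _ n => (1 / 2 : ℝ) ^ n)
      (fun n => level_contDiff hq hsep n)
      (fun k _ => summable_geometric_of_lt_one (by norm_num) (by norm_num)) ?_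
    intro k _
    rw [Nat.cofinite_eq_atTop]
    filter_upwards [eventually_ge_atTop (max k 3)] with n hn x
    exact hbound k n (le_trans (le_max_left _ _) hn) (le_trans (le_max_right _ _) hn) x
  · intro z x hx y hy
    have h1 : ∀ n, nodeBump P q (PiNat.res z n) x = 1 := fun n =>
      nodeBump_one hq (by rw [PiNat.res_length]; exact hx n)
    have h2 : ∀ n, ∑ k ∈ Finset.range (n + 1), level P q Y k x = Y (PiNat.res z n) := by
      intro n
      have := sum_level hq hq1 hsep hstep hY0 (PiNat.res z (n + 1)) (by rw [h1]; norm_num)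
      rw [PiNat.res_length, PiNat.res_succ, List.tail_cons] at this
      exact this
    have h3 := (htend x).comp (tendsto_add_atTop_nat 1)
    have h4 : Tendsto (fun n => Y (PiNat.res z n)) atTop (𝓝 (∑' n, level P q Y n x)) :=
      h3.congr fun n => h2 n
    exact tendsto_nhds_unique h4 hy
  · intro x
    by_cases hall : ∀ n, ∃ t : List Γ, t.length = n ∧ nodeBump P q t x ≠ 0
    · right
      choose t ht1 ht2 using hall
      have h1 : ∀ n, ∃ a : Γ, t (n + 1) = a :: t n := by
        intro n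
        match h : t (n + 1), ht1 (n + 1), ht2 (n + 1) with
        | [], h', _ => simp at h'
        | a :: s, h', h'' =>
          have h3 := node_nest hq hq1 hstep h''
          have h4 : s = t n := node_unique hq hsep
            (by rw [ht1]; simpa using h') (by rw [h3]; norm_num) (ht2 n)
          exact ⟨a, by rw [h4]⟩
      choose z hz using h1
      have h2 : ∀ n, PiNat.res z n = t n := by
        intro n
        induction n with
        | zero => rw [PiNat.res_zero]; exact (List.length_eq_zero_iff.1 (ht1 0)).symm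
        | succ n ih => rw [PiNat.res_succ, ih, hz]
      refine ⟨z, fun n => ?_, ?_⟩
      · have := nodeBump_ne_zero hq (ht2 n)
        rw [h2]
        rwa [ht1] at this
      · have h3 := (htend x).comp (tendsto_add_atTop_nat 1)
        refine h3.congr fun n => ?_
        have := sum_level hq hq1 hsep hstep hY0 (t (n + 1)) (ht2 (n + 1))
        rw [hz n, List.tail_cons, ← hz n, ht1] at this
        rw [h2]
        exact this
    · left
      have hdown : ∀ n, (∃ t : List Γ, t.length = n + 1 ∧ nodeBump P q t x ≠ 0) →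
          ∃ t : List Γ, t.length = n ∧ nodeBump P q t x ≠ 0 := by
        rintro n ⟨t, ht, h⟩
        match t, ht, h with
        | [], ht, _ => simp at ht
        | a :: s, ht, h =>
          exact ⟨s, by simpa using ht, by rw [node_nest hq hq1 hstep h]; norm_num⟩
      push Not at hall
      classical
      have hex : ∃ n, ¬ ∃ t : List Γ, t.length = n ∧ nodeBump P q t x ≠ 0 := by
        obtain ⟨n, hn⟩ := hall
        exact ⟨n, by push Not; exact hn⟩
      set N := Nat.find hex with hN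
      have hNspec := Nat.find_spec hex
      rw [← hN] at hNspec
      have hzero : ∀ n, N ≤ n → ¬ ∃ t : List Γ, t.length = n ∧ nodeBump P q t x ≠ 0 := by
        intro n hn
        induction n, hn using Nat.le_induction with
        | base => exact hNspec
        | succ n _ ih => exact fun h => ih (hdown n h)
      have hlev : ∀ n, N ≤ n → level P q Y n x = 0 := by
        intro n hn
        unfold level
        rw [dif_neg (hzero n hn)]
      have htsum : ∑' n, level P q Y n x = ∑ n ∈ Finset.range N, level P q Y n x := by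
        refine tsum_eq_sum fun n hn => hlev n ?_
        simpa using hn
      rcases Nat.eq_zero_or_pos N with h0 | hpos
      · obtain ⟨γ⟩ := ‹Nonempty Γ›
        refine ⟨[], γ, ?_⟩
        beta_reduce
        rw [htsum, h0, Finset.range_zero, Finset.sum_empty, hY0]
        exact left_mem_segment _ _ _
      · obtain ⟨M, hM⟩ : ∃ M, N = M + 1 := ⟨N - 1, by omega⟩
        have hact : ∃ t : List Γ, t.length = M ∧ nodeBump P q t x ≠ 0 := by
          have := Nat.find_min hex (m := M) (by omega)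
          exact not_not.1 this
        obtain ⟨t, ht, h⟩ := hact
        have hsum := sum_level hq hq1 hsep hstep hY0 t h
        have hlevel : level P q Y M x = nodeBump P q t x • (Y t - Y t.tail) :=
          level_eq_of_unique ht fun t' ht' h' => node_unique hq hsep (by rw [ht, ht']) h' h
        have hval : ∑' n, level P q Y n x = Y t.tail + nodeBump P q t x • (Y t - Y t.tail) := by
          rw [htsum, hM, Finset.sum_range_succ, ← ht, hsum, ht, hlevel]
        match t, ht, h, hval with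
        | [], _, _, hval =>
          obtain ⟨γ⟩ := ‹Nonempty Γ›
          refine ⟨[], γ, ?_⟩
          beta_reduce
          rw [hval]
          simp only [List.tail_nil, sub_self, smul_zero, add_zero]
          exact left_mem_segment _ _ _
        | a :: s, _, _, hval =>
          refine ⟨s, a, ?_⟩
          beta_reduce
          rw [hval, segment_eq_image']
          exact ⟨nodeBump P q (a :: s) x, ⟨bump_nonneg _ _ _, bump_le_one _ _ _⟩, rfl⟩
  · intro x
    obtain ⟨M, hM⟩ := one_level hq hq1 hsep hstep x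
    have hzero : ∀ n, n ≠ M → fderiv ℝ (level P q Y n) x = 0 := fun n hn =>
      level_fderiv_zero hq hsep n x fun t ht => hM t (by rw [ht]; exact hn)
    have hdiff : ∀ n, Differentiable ℝ (level P q Y n) := fun n =>
      (level_contDiff hq hsep n).differentiable (by simp)
    have hfb : ∀ (n : ℕ) (y : H), ‖fderiv ℝ (level P q Y (n + 3)) y‖ ≤ (1 / 2) ^ (n + 3) := by
      intro n y
      have := hbound 1 (n + 3) (by omega) (by omega) y
      rwa [norm_iteratedFDeriv_one] at this
    have hsu : Summable fun n : ℕ => (1 / 2 : ℝ) ^ (n + 3) := by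
      rw [summable_nat_add_iff 3]
      exact summable_geometric_of_lt_one (by norm_num) (by norm_num)
    have hs3 : ∀ y, Summable fun n => level P q Y (n + 3) y := fun y =>
      (summable_nat_add_iff 3).2 (hsummable y)
    have hsplit : (fun y => ∑' n, level P q Y n y) =
        (fun y => ∑ n ∈ Finset.range 3, level P q Y n y) +
          fun y => ∑' n, level P q Y (n + 3) y := by
      funext y
      exact ((hsummable y).sum_add_tsum_nat_add 3).symm
    have hd1 : DifferentiableAt ℝ (fun y => ∑ n ∈ Finset.range 3, level P q Y n y) x :=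
      DifferentiableAt.fun_sum fun n _ => (hdiff n) x
    have hd2 : DifferentiableAt ℝ (fun y => ∑' n, level P q Y (n + 3) y) x :=
      (differentiable_tsum hsu (fun n y => ((hdiff (n + 3)) y).hasFDerivAt) (hfb)) x
    have hfd : fderiv ℝ (fun y => ∑' n, level P q Y n y) x = fderiv ℝ (level P q Y M) x := by
      rw [hsplit, fderiv_add hd1 hd2, fderiv_fun_sum (fun n _ => (hdiff n) x),
        fderiv_tsum hsu (fun n => hdiff (n + 3)) hfb (hs3 x)]
      have hsum0 : Summable fun n => fderiv ℝ (level P q Y n) x :=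
        summable_of_ne_finset_zero (s := {M}) fun n hn => hzero n (by simpa using hn)
      rw [hsum0.sum_add_tsum_nat_add 3]
      exact tsum_eq_single M hzero
    beta_reduce
    rw [hfd]
    exact level_fderiv_rank hq hsep M x

end TreeMap

section Tree

variable {Γ : Type u}

open Classical in
/-- The point of `ℓ^p(Γ)` attached to a finite list over `Γ`. -/
noncomputable def pt (p : ℝ≥0∞) (ι : List Γ → Γ) (q : ℝ) : List Γ → lp (fun _ : Γ => ℝ) p
  | [] => 0
  | a :: s => pt p ι q s + lp.single p (ι (a :: s)) (q ^ (s.length + 1))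

open Classical in
lemma pt_coord (p : ℝ≥0∞) (ι : List Γ → Γ) (hι : Function.Injective ι) (q : ℝ) :
    ∀ (t s : List Γ), s ≠ [] → t.length ≤ s.length →
      pt p ι q t (ι s) = if t = s then q ^ s.length else 0 := by
  intro t
  induction t with
  | nil =>
    intro s hs _
    rw [if_neg (fun h => hs h.symm)]
    simp [pt]
  | cons a t ih =>
    intro s hs hlen
    have h1 : t ≠ s := by
      rintro rfl
      simp at hlen
    have h2 : pt p ι q t (ι s) = 0 := by
      rw [ih s hs (by simp at hlen; omega), if_neg h1]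
    simp only [pt, lp.coeFn_add, Pi.add_apply, h2, zero_add]
    by_cases h : a :: t = s
    · subst h
      rw [if_pos rfl, lp.single_apply_self]
      simp
    · rw [if_neg h, lp.single_apply_ne]
      intro h'
      exact h (hι h').symm

open Classical in
lemma norm_pt_cons (p : ℝ≥0∞) [Fact (1 ≤ p)] (ι : List Γ → Γ) {q : ℝ} (hq : 0 ≤ q) (a : Γ)
    (s : List Γ) : ‖pt p ι q (a :: s) - pt p ι q s‖ = q ^ (s.length + 1) := by
  have hp : 0 < p := zero_lt_one.trans_le Fact.out
  simp only [pt, add_sub_cancel_left]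
  rw [lp.norm_single hp, Real.norm_of_nonneg (by positivity)]

open Classical in
lemma norm_pt_sub (p : ℝ≥0∞) [Fact (1 ≤ p)] (ι : List Γ → Γ) (hι : Function.Injective ι)
    {q : ℝ} (hq : 0 ≤ q) {s t : List Γ} (hne : s ≠ t) (hlen : s.length = t.length) :
    q ^ s.length ≤ ‖pt p ι q s - pt p ι q t‖ := by
  have hs : s ≠ [] := by
    rintro rfl
    exact hne (List.length_eq_zero_iff.1 (by simpa using hlen.symm)).symm
  have hp : p ≠ 0 := (zero_lt_one.trans_le Fact.out).ne'
  have h := lp.norm_apply_le_norm hp (pt p ι q s - pt p ι q t) (ι s)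
  rw [lp.coeFn_sub, Pi.sub_apply, pt_coord p ι hι q s s hs le_rfl,
    pt_coord p ι hι q t s hs hlen.ge, if_pos rfl, if_neg hne.symm, sub_zero,
    Real.norm_of_nonneg (by positivity)] at h
  exact h

open Classical in
/-- the coordinates of `pt` for `ℓ^2` are powers of those for `ℓ^p`. -/
lemma pt_pow (p : ℝ≥0∞) (ι : List Γ → Γ) (hι : Function.Injective ι) (b : ℝ) (k : ℕ) (hk : k ≠ 0) :
    ∀ (t : List Γ) (γ : Γ), pt 2 ι (b ^ k) t γ = (pt p ι b t γ) ^ k := by
  intro t
  induction t with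
  | nil => intro γ; simp [pt, hk]
  | cons a t ih =>
    intro γ
    simp only [pt, lp.coeFn_add, Pi.add_apply]
    by_cases h : γ = ι (a :: t)
    · subst h
      have h1 : pt p ι b t (ι (a :: t)) = 0 := by
        rw [pt_coord p ι hι b t (a :: t) (by simp) (by simp), if_neg]
        intro h
        have := congrArg List.length h
        simp at this
      have h2 : pt 2 ι (b ^ k) t (ι (a :: t)) = 0 := by rw [ih, h1, zero_pow hk]
      rw [h1, h2, lp.single_apply_self, lp.single_apply_self, zero_add, zero_add, ← pow_mul,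
        ← pow_mul, mul_comm]
    · rw [lp.single_apply_ne _ _ _ h, lp.single_apply_ne _ _ _ h, add_zero, add_zero, ih]

/-- Along a branch the points converge geometrically. -/
lemma exists_limit (p : ℝ≥0∞) [Fact (1 ≤ p)] (ι : List Γ → Γ) {q : ℝ} (hq : 0 ≤ q)
    (hq1 : q ≤ 1 / 16) (z : ℕ → Γ) :
    ∃ x : lp (fun _ : Γ => ℝ) p, Tendsto (fun n => pt p ι q (PiNat.res z n)) atTop (𝓝 x) ∧
      ∀ n, ‖x - pt p ι q (PiNat.res z n)‖ ≤ q ^ n / 8 := by
  have hdist : ∀ n, dist (pt p ι q (PiNat.res z n)) (pt p ι q (PiNat.res z (n + 1))) ≤ q * q ^ n := by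
    intro n
    rw [dist_comm, dist_eq_norm, PiNat.res_succ, norm_pt_cons p ι hq, PiNat.res_length, pow_succ']
  have hc : CauchySeq (fun n => pt p ι q (PiNat.res z n)) :=
    cauchySeq_of_le_geometric q q (by linarith) hdist
  obtain ⟨x, hx⟩ := cauchySeq_tendsto_of_complete hc
  refine ⟨x, hx, fun n => ?_⟩
  have h := dist_le_of_le_geometric_of_tendsto q q (by linarith) hdist hx n
  rw [dist_comm, dist_eq_norm] at h
  refine h.trans ?_
  have h1 : q / (1 - q) ≤ 1 / 8 := by
    rw [div_le_div_iff₀ (by linarith) (by norm_num)]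
    linarith
  calc q * q ^ n / (1 - q) = q ^ n * (q / (1 - q)) := by ring
    _ ≤ q ^ n * (1 / 8) := by gcongr
    _ = q ^ n / 8 := by ring

end Tree

section PowerMap

variable {Γ : Type u}

lemma eval_continuous (p : ℝ≥0∞) [Fact (1 ≤ p)] (γ : Γ) :
    Continuous fun x : lp (fun _ : Γ => ℝ) p => x γ := (lp.lipschitzWith_one_eval p γ).continuous

/-- For `p ≤ 2`, the inclusion of `ℓ^p` in `ℓ^2` is continuous. -/
lemma exists_power_base (p : ℝ≥0∞) [Fact (1 ≤ p)] (hp : p ≤ 2) :
    ∃ k : ℕ, 1 ≤ k ∧ ∃ J : lp (fun _ : Γ => ℝ) p → lp (fun _ : Γ => ℝ) 2, ContDiff ℝ ∞ J ∧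
      ∀ x γ, J x γ = (x γ) ^ k := by
  set T : lp (fun _ : Γ => ℝ) p →ₗ[ℝ] lp (fun _ : Γ => ℝ) 2 := lp.linearMapOfLE ℝ _ hp with hT
  have hTapp : ∀ x γ, T x γ = x γ := by
    intro x γ
    rw [hT, lp.coe_linearMapOfLE_apply]
  have hcont : Continuous T := by
    refine LinearMap.continuous_of_seq_closed_graph T fun u x y hu hTu => ?_
    ext γ
    have h1 : Tendsto (fun n => u n γ) atTop (𝓝 (x γ)) :=
      ((eval_continuous p γ).tendsto x).comp hu
    have h2 : Tendsto (fun n => u n γ) atTop (𝓝 (y γ)) :=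
      (((eval_continuous 2 γ).tendsto y).comp hTu).congr fun n => hTapp (u n) γ
    rw [hTapp]
    exact tendsto_nhds_unique h2 h1
  refine ⟨1, le_rfl, fun x => T x, ?_, fun x γ => by rw [hTapp, pow_one]⟩
  exact (⟨T, hcont⟩ : lp (fun _ : Γ => ℝ) p →L[ℝ] lp (fun _ : Γ => ℝ) 2).contDiff

/-- coordinatewise squaring from `ℓ^p` to `ℓ^(p/2)`. -/
lemma exists_square (p r : ℝ≥0∞) [Fact (1 ≤ p)] [Fact (1 ≤ r)] (hpr : p⁻¹ + p⁻¹ = r⁻¹) :
    ∃ Q : lp (fun _ : Γ => ℝ) p → lp (fun _ : Γ => ℝ) r, ContDiff ℝ ∞ Q ∧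
      ∀ x γ, Q x γ = (x γ) ^ 2 := by
  have : ENNReal.HolderTriple p p r := ⟨hpr⟩
  have hB : ∀ _ : Γ, ‖ContinuousLinearMap.mul ℝ ℝ‖ ≤ ((1 : ℝ≥0) : ℝ) := fun _ =>
    ContinuousLinearMap.opNorm_mul_le ℝ ℝ
  set B := lp.holderL (p := p) (q := p) r (fun _ : Γ => ContinuousLinearMap.mul ℝ ℝ) hB with hBdef
  refine ⟨fun x => B x x, ?_, fun x γ => ?_⟩
  · exact (B.contDiff).clm_apply contDiff_id
  · have : B x x γ = x γ * x γ := rfl
    rw [this, sq]

lemma exists_power (m : ℕ) : ∀ (p : ℝ≥0∞) [Fact (1 ≤ p)], p ≤ 2 ^ (m + 1) →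
    ∃ k : ℕ, 1 ≤ k ∧ ∃ J : lp (fun _ : Γ => ℝ) p → lp (fun _ : Γ => ℝ) 2, ContDiff ℝ ∞ J ∧
      ∀ x γ, J x γ = (x γ) ^ k := by
  induction m with
  | zero => intro p _ hp; exact exists_power_base p (by simpa using hp)
  | succ m ih =>
    intro p _ hp
    by_cases h2 : p ≤ 2
    · exact exists_power_base p h2
    · push Not at h2
      have h1r : 1 ≤ p / 2 := by
        rw [ENNReal.le_div_iff_mul_le (by simp) (by simp)]
        simpa using h2.le
      have : Fact (1 ≤ p / 2) := ⟨h1r⟩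
      have hr : p / 2 ≤ 2 ^ (m + 1) := by
        rw [ENNReal.div_le_iff_le_mul (by simp) (by simp)]
        rwa [← pow_succ]
      obtain ⟨k, hk, J, hJ, hJk⟩ := ih (p / 2) hr
      obtain ⟨Q, hQ, hQs⟩ := exists_square (Γ := Γ) p (p / 2) (by
        rw [ENNReal.inv_div (by simp) (by simp), ← two_mul, ENNReal.div_eq_inv_mul, mul_comm])
      refine ⟨2 * k, by omega, fun x => J (Q x), hJ.comp hQ, fun x γ => ?_⟩
      rw [hJk, hQs, ← pow_mul]

/-- For every finite `p ≥ 1` some coordinatewise power map is a smooth map from `ℓ^p` to `ℓ^2`. -/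
lemma exists_power_map (p : ℝ≥0∞) [Fact (1 ≤ p)] (hp : p ≠ ⊤) :
    ∃ k : ℕ, 1 ≤ k ∧ ∃ J : lp (fun _ : Γ => ℝ) p → lp (fun _ : Γ => ℝ) 2, ContDiff ℝ ∞ J ∧
      ∀ x γ, J x γ = (x γ) ^ k := by
  obtain ⟨n, hn⟩ := ENNReal.exists_nat_gt hp
  refine exists_power n p (hn.le.trans ?_)
  have h : n ≤ 2 ^ (n + 1) := (Nat.lt_two_pow_self (n := n)).le.trans
    (Nat.pow_le_pow_right (by norm_num) (by omega))
  exact_mod_cast h

end PowerMap

section Retraction

attribute [local instance] PiNat.dist PiNat.metricSpace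

lemma exists_local_retraction {E : ℕ → Type*} [∀ n, TopologicalSpace (E n)]
    [∀ n, DiscreteTopology (E n)] {s : Set (∀ n, E n)} (hs : IsClosed s) (hne : s.Nonempty) :
    ∃ f : (∀ n, E n) → ∀ n, E n, (∀ x ∈ s, f x = x) ∧ (∀ x, f x ∈ s) ∧
      ∀ x y n, (∀ i < n, x i = y i) → ∀ i < n, f x i = f y i := by
  obtain ⟨f, h1, h2, h3⟩ := PiNat.exists_lipschitz_retraction_of_isClosed hs hne
  refine ⟨f, h1, fun x => h2 ▸ mem_range_self x, fun x y n hxy => ?_⟩
  have h4 : x ∈ PiNat.cylinder y n := PiNat.mem_cylinder_iff.2 hxy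
  rw [PiNat.mem_cylinder_iff_dist_le] at h4
  have h5 : dist (f x) (f y) ≤ dist x y := by simpa using h3.dist_le_mul x y
  have h6 : f x ∈ PiNat.cylinder (f y) n := by
    rw [PiNat.mem_cylinder_iff_dist_le]
    exact h5.trans h4
  exact PiNat.mem_cylinder_iff.1 h6

end Retraction

section Param

variable {F : Type v} [MetricSpace F]

/-- A uniformly controlled parametrization of a nonempty analytic set. -/
lemma exists_param (d : ℕ → F) (hd : DenseRange d) (δ : ℕ → ℝ) (hδ : ∀ n, 0 < δ n)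
    (A : Set F) (hA : AnalyticSet A) (hne : A.Nonempty) :
    ∃ (κ : (ℕ → ℕ × ℕ) → ℕ → ℕ) (G : (ℕ → ℕ × ℕ) → F),
      (∀ ζ ζ' n, (∀ i ≤ n, ζ i = ζ' i) → κ ζ n = κ ζ' n) ∧
      (∀ ζ n, dist (G ζ) (d (κ ζ n)) ≤ δ n) ∧ range G = A := by
  rw [AnalyticSet] at hA
  obtain ⟨f, hf, hfr⟩ : ∃ f : (ℕ → ℕ) → F, Continuous f ∧ range f = A := by
    rcases hA with h | h
    · exact absurd h hne.ne_empty
    · exact h
  set Z : Set (ℕ → ℕ × ℕ) := {ζ | ∀ n, dist (f fun i => (ζ i).1) (d (ζ n).2) ≤ δ n} with hZ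
  have hZc : IsClosed Z := by
    rw [hZ, ofPred_forall]
    refine isClosed_iInter fun n => isClosed_le ?_ continuous_const
    refine Continuous.dist (hf.comp ?_) ?_
    · exact continuous_pi fun i => continuous_fst.comp (continuous_apply i)
    · have : Continuous fun k : ℕ × ℕ => d k.2 := continuous_of_discreteTopology
      exact this.comp (continuous_apply n)
  have hlift : ∀ σ : ℕ → ℕ, ∃ ζ ∈ Z, (fun i => (ζ i).1) = σ := by
    intro σ
    have : ∀ n, ∃ k, dist (f σ) (d k) < δ n := fun n => hd.exists_dist_lt (f σ) (hδ n)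
    choose k hk using this
    exact ⟨fun n => (σ n, k n), fun n => (hk n).le, rfl⟩
  have hZne : Z.Nonempty := by
    obtain ⟨ζ, hζ, _⟩ := hlift 0
    exact ⟨ζ, hζ⟩
  obtain ⟨ρ, h1, h2, h3⟩ := exists_local_retraction hZc hZne
  refine ⟨fun ζ n => (ρ ζ n).2, fun ζ => f fun i => (ρ ζ i).1, ?_, ?_, ?_⟩
  · intro ζ ζ' n h
    have := h3 ζ ζ' (n + 1) (fun i hi => h i (by omega)) n (by omega)
    simp only [this]
  · intro ζ n
    exact h2 ζ n
  · rw [← hfr]
    ext y
    constructor
    · rintro ⟨ζ, rfl⟩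
      exact ⟨_, rfl⟩
    · rintro ⟨σ, rfl⟩
      obtain ⟨ζ, hζ, hσ⟩ := hlift σ
      refine ⟨ζ, ?_⟩
      simp only [h1 ζ hζ, hσ]

end Param

end Pool.Agent.Y276.SS
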