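import Mathlib

/-!
Disjoint uncountable Borel sets inside the members of a base of a separable Banach space of
dimension at least two, off a countable union of segments.
-/

set_option autoImplicit false
set_option linter.unusedSectionVars false

open Filter Topology Set MeasureTheory
open scoped ENNReal NNReal ContDiff

namespace Pool.Agent.Y276.SS

universe u v

variable {F : Type v} [NormedAddCommGroup F] [NormedSpace ℝ F]

/-- countable union of segments with end points in the sequence `d`. -/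
def segs (d : ℕ → F) : Set F := ⋃ ij : ℕ × ℕ, segment ℝ (d ij.1) (d ij.2)

lemma isCompact_segment' (a b : F) : IsCompact (segment ℝ a b) := by
  rw [segment_eq_image']
  exact isCompact_Icc.image (by fun_prop)

lemma sub_seg {x D a e : F} (hD : ∀ c : ℝ, c ≠ 0 → e - a ≠ c • D) (hD0 : D ≠ 0) :
    {s : ℝ | x + s • D ∈ segment ℝ a e}.Subsingleton := by
  intro s hs s' hs'
  rw [mem_ofPred_eq, segment_eq_image'] at hs hs'
  obtain ⟨t, _, ht⟩ := hs
  obtain ⟨t', _, ht'⟩ := hs'
  beta_reduce at ht ht'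
  have h1 : (t - t') • (e - a) = (s - s') • D := by
    have h2 : (t - t') • (e - a) = (a + t • (e - a)) - (a + t' • (e - a)) := by
      rw [sub_smul]; abel
    rw [h2, ht, ht', sub_smul]
    abel
  by_contra hne
  have hs0 : s - s' ≠ 0 := sub_ne_zero.2 hne
  have ht0 : t - t' ≠ 0 := by
    intro h
    rw [h, zero_smul] at h1
    exact smul_ne_zero hs0 hD0 h1.symm
  refine hD ((t - t')⁻¹ * (s - s')) (mul_ne_zero (inv_ne_zero ht0) hs0) ?_
  rw [mul_smul, ← h1, smul_smul, inv_mul_cancel₀ ht0, one_smul]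

lemma exists_pieces [MeasurableSpace F] [BorelSpace F] (hF : 1 < Module.rank ℝ F) (d : ℕ → F)
    (hd : DenseRange d) :
    ∃ P : ℕ → Set F, (∀ m, MeasurableSet (P m)) ∧ (∀ m n, m ≠ n → Disjoint (P m) (P n)) ∧
      (∀ m, Disjoint (P m) (segs d)) ∧ (∀ m, ¬ (P m).Countable) ∧
      ∀ U : Set F, IsOpen U → U.Nonempty → ∃ m, P m ⊆ U := by
  have hno : ∀ v₀ : F, ∃ v : F, ∀ r : ℝ, r • v₀ ≠ v := by
    intro v₀
    by_contra hcon
    push Not at hcon
    exact absurd hF (not_lt.2 (rank_le_one_iff.2 ⟨v₀, hcon⟩))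
  obtain ⟨u, hu⟩ := hno 0
  have hu0 : u ≠ 0 := by
    intro h
    exact hu 0 (by rw [h, smul_zero])
  obtain ⟨w, hw⟩ := hno u
  set dir : ℝ → F := fun t => w + t • u with hdir
  have hdir0 : ∀ t, dir t ≠ 0 := by
    intro t h
    refine hw (-t) ?_
    rw [neg_smul]
    exact (eq_neg_of_add_eq_zero_left h).symm
  have hdirinj : ∀ c c' t t' : ℝ, c ≠ 0 → c • dir t = c' • dir t' → t = t' := by
    intro c c' t t' hc h
    have h1 : (c - c') • w = (c' * t' - c * t) • u := by
      have h2 : c • w + (c * t) • u = c' • w + (c' * t') • u := by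
        have h3 := h
        simp only [hdir, smul_add, smul_smul] at h3
        exact h3
      rw [sub_smul, sub_smul]
      rw [sub_eq_sub_iff_add_eq_add]
      rw [h2]
      abel
    have hcc : c - c' = 0 := by
      by_contra hne
      refine hw ((c - c')⁻¹ * (c' * t' - c * t)) ?_
      rw [mul_smul, ← h1, smul_smul, inv_mul_cancel₀ hne, one_smul]
    rw [hcc, zero_smul] at h1
    have h4 : c' * t' - c * t = 0 := by
      by_contra hne
      exact smul_ne_zero hne hu0 h1.symm
    have h5 : c = c' := sub_eq_zero.1 hcc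
    rw [← h5, ← mul_sub] at h4
    have h6 := (mul_eq_zero.1 h4).resolve_left hc
    linarith
  set Bad : Set ℝ := ⋃ ij : ℕ × ℕ, {t | ∃ c : ℝ, c ≠ 0 ∧ d ij.2 - d ij.1 = c • dir t} with hBad
  have hBadc : Bad.Countable := by
    refine countable_iUnion fun ij => Set.Subsingleton.countable ?_
    rintro t ⟨c, hc, h⟩ t' ⟨c', hc', h'⟩
    exact hdirinj c c' t t' hc (h.symm.trans h')
  have hinf : (Badᶜ).Infinite := fun hfin =>
    Cardinal.not_countable_real ((hBadc.union hfin.countable).mono (by rw [union_compl_self]))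
  set τ := hinf.natEmbedding with hτ
  set ρ : ℕ → ℝ := fun m => 1 / (((m.unpair.2 : ℝ) + 1) * (‖dir (τ m)‖ + 1)) with hρ
  have hρ0 : ∀ m, 0 < ρ m := fun m => by simp only [hρ]; positivity
  set S : ℕ → Set F := fun m =>
    segment ℝ (d m.unpair.1) (d m.unpair.1 + ρ m • dir (τ m)) with hS
  have hSball : ∀ m, S m ⊆ Metric.ball (d m.unpair.1) (1 / ((m.unpair.2 : ℝ) + 1)) := by
    intro m y hy
    simp only [hS] at hy
    rw [segment_eq_image'] at hy
    obtain ⟨t, ht, rfl⟩ := hy
    beta_reduce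
    rw [mem_ball_iff_norm, add_sub_cancel_left, add_sub_cancel_left, norm_smul, norm_smul,
      Real.norm_of_nonneg ht.1, Real.norm_of_nonneg (hρ0 m).le]
    have h1 : ρ m * ‖dir (τ m)‖ < 1 / ((m.unpair.2 : ℝ) + 1) := by
      simp only [hρ]
      rw [div_mul_eq_mul_div, one_mul, div_lt_div_iff₀ (by positivity) (by positivity), one_mul]
      have : 0 < (m.unpair.2 : ℝ) + 1 := by positivity
      nlinarith [norm_nonneg (dir (τ m))]
    have h2 : 0 ≤ ρ m * ‖dir (τ m)‖ := mul_nonneg (hρ0 m).le (norm_nonneg _)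
    calc t * (ρ m * ‖dir (τ m)‖) ≤ 1 * (ρ m * ‖dir (τ m)‖) := by
          gcongr
          exact ht.2
      _ < _ := by rw [one_mul]; exact h1
  set P : ℕ → Set F := fun m => S m \ (segs d ∪ ⋃ (n : ℕ) (_ : n ≠ m), S n) with hP
  have hSm : ∀ m, MeasurableSet (S m) := fun m => (isCompact_segment' _ _).measurableSet
  refine ⟨P, fun m => ?_, fun m n hmn => ?_, fun m => ?_, fun m => ?_, fun U hU hne => ?_⟩
  · refine (hSm m).diff (MeasurableSet.union ?_ ?_)
    · exact MeasurableSet.iUnion fun ij => (isCompact_segment' _ _).measurableSet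
    · exact MeasurableSet.iUnion fun n => MeasurableSet.iUnion fun _ => hSm n
  · rw [Set.disjoint_left]
    intro y hy hy'
    exact hy.2 (Or.inr (mem_iUnion.2 ⟨n, mem_iUnion.2 ⟨hmn.symm, hy'.1⟩⟩))
  · rw [Set.disjoint_left]
    intro y hy hy'
    exact hy.2 (Or.inl hy')
  · intro hc
    set φ : ℝ → F := fun s => d m.unpair.1 + s • (ρ m • dir (τ m)) with hφ
    have hD0 : ρ m • dir (τ m) ≠ 0 := smul_ne_zero (hρ0 m).ne' (hdir0 _)
    have hφinj : Function.Injective φ := by
      intro s s' h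
      simp only [hφ] at h
      have h1 := add_left_cancel h
      exact smul_left_injective ℝ hD0 h1
    have h1 : (φ ⁻¹' (P m)).Countable := hc.preimage_of_injOn hφinj.injOn
    have h2 : (⋃ ij : ℕ × ℕ, {s : ℝ | φ s ∈ segment ℝ (d ij.1) (d ij.2)}).Countable := by
      refine countable_iUnion fun ij => (sub_seg ?_ hD0).countable
      intro c hc0 h
      rw [smul_smul] at h
      exact (τ m).2 (mem_iUnion.2 ⟨ij, c * ρ m, mul_ne_zero hc0 (hρ0 m).ne', h⟩)
    have h3 : (⋃ (n : ℕ) (_ : n ≠ m), {s : ℝ | φ s ∈ S n}).Countable := by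
      refine countable_iUnion fun n => countable_iUnion fun hn => (sub_seg ?_ hD0).countable
      intro c hc0 h
      rw [add_sub_cancel_left, smul_smul] at h
      have h4 := hdirinj _ _ _ _ (hρ0 n).ne' h
      exact hn (τ.injective (Subtype.ext h4))
    have h4 : Icc (0 : ℝ) 1 ⊆ φ ⁻¹' (P m) ∪
        ((⋃ ij : ℕ × ℕ, {s : ℝ | φ s ∈ segment ℝ (d ij.1) (d ij.2)}) ∪
          ⋃ (n : ℕ) (_ : n ≠ m), {s : ℝ | φ s ∈ S n}) := by
      intro s hs
      have h5 : φ s ∈ S m := by
        simp only [hS]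
        rw [segment_eq_image']
        refine ⟨s, hs, ?_⟩
        beta_reduce
        rw [add_sub_cancel_left]
      by_cases h6 : φ s ∈ segs d ∪ ⋃ (n : ℕ) (_ : n ≠ m), S n
      · right
        rcases h6 with h6 | h6
        · left
          simp only [segs, mem_iUnion] at h6 ⊢
          exact h6
        · right
          simp only [mem_iUnion] at h6 ⊢
          exact h6
      · exact Or.inl ⟨h5, h6⟩
    have h5 : (Icc (0 : ℝ) 1).Countable := (h1.union (h2.union h3)).mono h4
    have h6 := h5.measure_zero volume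
    rw [Real.volume_Icc] at h6
    norm_num at h6
  · obtain ⟨x, hx⟩ := hne
    obtain ⟨ε, hε, hball⟩ := Metric.isOpen_iff.1 hU x hx
    obtain ⟨i, hi⟩ := hd.exists_dist_lt x (half_pos hε)
    obtain ⟨j, hj⟩ := exists_nat_one_div_lt (half_pos hε)
    refine ⟨Nat.pair i j, ?_⟩
    intro y hy
    have h1 := hSball _ hy.1
    rw [Nat.unpair_pair] at h1
    apply hball
    rw [Metric.mem_ball] at h1 ⊢
    calc dist y x ≤ dist y (d i) + dist (d i) x := dist_triangle _ _ _
      _ < ε / 2 + ε / 2 := by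
          rw [dist_comm (d i) x]
          exact add_lt_add (h1.trans hj) hi
      _ = ε := by ring

end Pool.Agent.Y276.SS
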