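import Pool.Agent.Y276.SS.Base
import Pool.Agent.Y276.SS.Pieces

/-!
Smooth maps of rank at most one from `ℓ^p(Γ)` onto separable Banach spaces of dimension at
least two; adapted from the starting file
`Pool/Agent/Results/MP_9a6711_an/SmoothSurjection.lean`.
-/

set_option autoImplicit false
set_option linter.unusedSectionVars false

open Filter Topology Set MeasureTheory
open scoped ENNReal NNReal ContDiff

namespace Pool.Agent.Y276.SS

universe u v

section Sets

variable {F : Type v} [NormedAddCommGroup F] [NormedSpace ℝ F]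

/-- The family of analytic sets. -/
lemma exists_family {Γ : Type u} [Uncountable Γ] (r : Γ → ℝ) (hr : Function.Injective r)
    [CompleteSpace F] [SecondCountableTopology F] (hF : 1 < Module.rank ℝ F) (d : ℕ → F)
    (hd : DenseRange d) :
    ∃ A : Γ → Set F, (∀ α, AnalyticSet (A α)) ∧ (∀ α, segs d ⊆ A α) ∧ (⋃ α, A α) = univ ∧
      ∀ Γ₀ : Set Γ, Γ₀.Countable → ∀ U : Set F, IsOpen U → U.Nonempty →
        ∃ y ∈ U, y ∉ segs d ∧ ∀ α ∈ Γ₀, y ∉ A α := by
  borelize F
  obtain ⟨P, hPm, hPd, hPs, hPc, hPU⟩ := exists_pieces hF d hd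
  have hst : ∀ m, StandardBorelSpace ↥(P m) := fun m => (hPm m).standardBorel
  have hunc : ∀ m, ¬ Countable ↥(P m) := fun m h => hPc m (countable_coe_iff.1 h)
  have hunc2 : ¬ Countable (ℕ → ℝ) := by
    intro h
    have : Function.Injective fun x : ℝ => fun _ : ℕ => x := by
      intro x y h
      exact congrFun h 0
    have h2 := this.countable
    exact not_countable h2
  have hΘ : ∀ m, Nonempty (↥(P m) ≃ᵐ (ℕ → ℝ)) := fun m =>
    ⟨PolishSpace.measurableEquivOfNotCountable (hunc m) hunc2⟩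
  have Θ : ∀ m, ↥(P m) ≃ᵐ (ℕ → ℝ) := fun m => Classical.choice (hΘ m)
  refine ⟨fun α => {y | ∀ m, ∀ hy : y ∈ P m, ∀ n, Θ m ⟨y, hy⟩ n ≠ r α}, fun α => ?_,
    fun α y hy m hm => ?_, ?_, ?_⟩
  · have h1 : ∀ m, MeasurableSet (Subtype.val '' {y : ↥(P m) | ∃ n, Θ m y n = r α}) := by
      intro m
      refine (MeasurableEmbedding.subtype_coe (hPm m)).measurableSet_image.2 ?_
      rw [ofPred_exists]
      refine MeasurableSet.iUnion fun n => ?_
      have h2 : Measurable fun y : ↥(P m) => Θ m y n :=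
        (measurable_pi_apply n).comp (Θ m).measurable
      exact h2 (measurableSet_singleton (r α))
    have h2 : {y | ∀ m, ∀ hy : y ∈ P m, ∀ n, Θ m ⟨y, hy⟩ n ≠ r α} =
        (⋃ m, Subtype.val '' {y : ↥(P m) | ∃ n, Θ m y n = r α})ᶜ := by
      ext y
      rw [mem_compl_iff, mem_iUnion]
      constructor
      · rintro h ⟨m, ⟨y', hy'⟩, ⟨n, hn⟩, rfl⟩
        exact h m hy' n hn
      · intro h m hy n hn
        exact h ⟨m, ⟨y, hy⟩, ⟨n, hn⟩, rfl⟩
    beta_reduce
    rw [h2]
    exact (MeasurableSet.iUnion h1).compl.analyticSet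
  · exact absurd hy (Set.disjoint_left.1 (hPs m) hm)
  · rw [eq_univ_iff_forall]
    intro y
    rw [mem_iUnion]
    by_cases hy : ∃ m, y ∈ P m
    · obtain ⟨m, hm⟩ := hy
      have h1 : ∃ α, ∀ n, Θ m ⟨y, hm⟩ n ≠ r α := by
        by_contra hcon
        push Not at hcon
        choose n hn using hcon
        have hinj : Function.Injective n := by
          intro α β hαβ
          apply hr
          rw [← hn α, ← hn β, hαβ]
        have := hinj.countable
        exact not_countable this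
      obtain ⟨α, hα⟩ := h1
      refine ⟨α, fun m' hm' n => ?_⟩
      have h2 : m' = m := by
        by_contra hne
        exact Set.disjoint_left.1 (hPd m' m hne) hm' hm
      subst h2
      exact hα n
    · exact ⟨Classical.arbitrary Γ, fun m hm => absurd ⟨m, hm⟩ hy⟩
  · intro Γ₀ hΓ₀ U hU hne
    obtain ⟨m, hm⟩ := hPU U hU hne
    obtain ⟨z, hz⟩ : ∃ z : ℕ → ℝ, ∀ α ∈ Γ₀, ∃ n, z n = r α := by
      rcases Γ₀.eq_empty_or_nonempty with h | h
      · exact ⟨0, by simp [h]⟩
      · obtain ⟨e, he⟩ := hΓ₀.exists_eq_range h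
        refine ⟨fun n => r (e n), fun α hα => ?_⟩
        rw [he] at hα
        obtain ⟨n, hn⟩ := hα
        exact ⟨n, by simp only [hn]⟩
    refine ⟨((Θ m).symm z : ↥(P m)), hm ((Θ m).symm z).2,
      Set.disjoint_left.1 (hPs m) ((Θ m).symm z).2, fun α hα h => ?_⟩
    obtain ⟨n, hn⟩ := hz α hα
    refine h m ((Θ m).symm z).2 n ?_
    rw [Subtype.coe_eta, MeasurableEquiv.apply_symm_apply, hn]

/-- The family of analytic sets, for an index set of cardinality at least the continuum. -/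
lemma exists_family2 {Γ : Type u} (hΓ : Cardinal.continuum ≤ Cardinal.mk Γ)
    [CompleteSpace F] [SecondCountableTopology F] (hF : 1 < Module.rank ℝ F) (d : ℕ → F)
    (hd : DenseRange d) :
    ∃ A : Γ → Set F, (∀ α, AnalyticSet (A α)) ∧ (∀ α, segs d ⊆ A α) ∧ (⋃ α, A α) = univ ∧
      ∀ Γ₀ : Set Γ, Cardinal.mk Γ₀ < Cardinal.continuum → ∀ U : Set F, IsOpen U → U.Nonempty →
        ∃ y ∈ U, y ∉ segs d ∧ ∀ α ∈ Γ₀, y ∉ A α := by
  borelize F
  obtain ⟨P, hPm, hPd, hPs, hPc, hPU⟩ := exists_pieces hF d hd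
  set S : Set F := segs d with hS
  have hPS : ∀ m, P m ⊆ Sᶜ := fun m y hy => Set.disjoint_left.1 (hPs m) hy
  have hSm : MeasurableSet S :=
    MeasurableSet.iUnion fun ij => (isCompact_segment' _ _).measurableSet
  have : StandardBorelSpace ↥(Sᶜ) := hSm.compl.standardBorel
  have hunc : ¬ Countable ↥(Sᶜ) := fun h =>
    hPc 0 ((countable_coe_iff.1 h).mono (hPS 0))
  have hunc2 : ¬ Countable ℝ := not_countable_iff.2 inferInstance
  have Θ : ↥(Sᶜ) ≃ᵐ ℝ := PolishSpace.measurableEquivOfNotCountable hunc hunc2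
  obtain ⟨e⟩ : Nonempty (ℝ ↪ Γ) := by
    apply Cardinal.lift_mk_le'.1
    rw [Cardinal.mk_real, Cardinal.lift_continuum]
    have := Cardinal.lift_le.{0}.2 hΓ
    simpa using hΓ
  refine ⟨fun α => S ∪ {y | ∃ t : ℝ, e t = α ∧ y = (Θ.symm t : ↥(Sᶜ))}, fun α => ?_,
    fun α => subset_union_left, ?_, ?_⟩
  · refine (hSm.union (Set.Subsingleton.measurableSet ?_)).analyticSet
    rintro y ⟨t, ht, rfl⟩ y' ⟨t', ht', rfl⟩
    rw [e.injective (ht.trans ht'.symm)]
  · rw [eq_univ_iff_forall]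
    intro y
    rw [mem_iUnion]
    by_cases hy : y ∈ S
    · exact ⟨e 0, Or.inl hy⟩
    · exact ⟨e (Θ ⟨y, hy⟩), Or.inr ⟨Θ ⟨y, hy⟩, rfl, by rw [MeasurableEquiv.symm_apply_apply]⟩⟩
  · intro Γ₀ hΓ₀ U hU hne
    obtain ⟨m, hm⟩ := hPU U hU hne
    have hstm : StandardBorelSpace ↥(P m) := (hPm m).standardBorel
    have huncm : ¬ Countable ↥(P m) := fun h => hPc m (countable_coe_iff.1 h)
    have Ξ : ↥(P m) ≃ᵐ ℝ := PolishSpace.measurableEquivOfNotCountable huncm hunc2
    obtain ⟨y, hy⟩ : ∃ y : ↥(P m), e (Θ ⟨y, hPS m y.2⟩) ∉ Γ₀ := by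
      by_contra hcon
      push Not at hcon
      have h1 : Cardinal.lift.{u} (Cardinal.mk ℝ) ≤ Cardinal.lift.{0} (Cardinal.mk Γ₀) := by
        refine Cardinal.lift_mk_le'.2 ⟨⟨fun t => ⟨_, hcon (Ξ.symm t)⟩, fun t t' h => ?_⟩⟩
        have h2 := Θ.injective (e.injective (congrArg Subtype.val h))
        exact Ξ.symm.injective (Subtype.ext (Subtype.mk.inj h2))
      rw [Cardinal.mk_real, Cardinal.lift_continuum, Cardinal.lift_uzero] at h1
      exact absurd hΓ₀ (not_lt.2 h1)
    refine ⟨y, hm y.2, hPS m y.2, fun α hα h => ?_⟩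
    rcases h with h | ⟨t', ht', h2⟩
    · exact hPS m y.2 h
    · have h3 : Θ ⟨y, hPS m y.2⟩ = t' := by
        have h4 : (⟨y, hPS m y.2⟩ : ↥(Sᶜ)) = Θ.symm t' := Subtype.ext h2
        rw [h4, MeasurableEquiv.apply_symm_apply]
      rw [h3, ht'] at hy
      exact hy hα

end Sets

section Main

variable {Γ : Type u} {F : Type v} [NormedAddCommGroup F] [NormedSpace ℝ F]

/-- approximations along a branch. -/
noncomputable def approx (d : ℕ → F) (κ : Γ → (ℕ → ℕ × ℕ) → ℕ → ℕ) (π : Γ → ℕ × ℕ) :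
    ℕ → (ℕ → Γ) → F
  | 0, _ => 0
  | 1, _ => 0
  | n + 2, z => d (κ (z 0) (fun i => π (z (i + 1))) n)

lemma exists_branch [Nonempty Γ] : ∀ t : List Γ, ∃ z : ℕ → Γ, PiNat.res z t.length = t := by
  intro t
  induction t with
  | nil => exact ⟨fun _ => Classical.arbitrary Γ, rfl⟩
  | cons a s ih =>
    obtain ⟨z, hz⟩ := ih
    classical
    refine ⟨Function.update z s.length a, ?_⟩
    rw [List.length_cons, PiNat.res_succ, Function.update_self]
    congr 1
    rw [← hz]
    rw [PiNat.res_length, PiNat.res_eq_res]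
    intro m hm
    rw [Function.update_of_ne hm.ne]

open Classical in
/-- the terms of the series that represent the points of the branches. -/
noncomputable def ser (p : ℝ≥0∞) (γ : ℕ → Γ) (i : ℕ) : lp (fun _ : Γ => ℝ) p :=
  lp.single p (γ i) ((1 / 16 : ℝ) ^ (i + 1))

/-- The construction, for an abstract family of analytic sets. -/
theorem main_construction (p : ℝ≥0∞) [Fact (1 ≤ p)] (hp : p ≠ ⊤) [Infinite Γ]
    [CompleteSpace F] (d : ℕ → F) (hd : DenseRange d) (hd0 : d 0 = 0)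
    (A : Γ → Set F) (hA1 : ∀ α, AnalyticSet (A α)) (hA2 : ∀ α, segs d ⊆ A α)
    (hA3 : (⋃ α, A α) = univ) :
    ∃ (g : lp (fun _ : Γ => ℝ) p → F) (j : Γ → Γ), Function.Injective j ∧ ContDiff ℝ ∞ g ∧
      (∀ x, ∃ w : F, ∀ h, ∃ c : ℝ, fderiv ℝ g x h = c • w) ∧
      (∀ y : F, ∃ γ : ℕ → Γ, ∀ x : lp (fun _ : Γ => ℝ) p,
        Tendsto (fun n => ∑ i ∈ Finset.range n, ser p γ i) atTop (𝓝 x) → g x = y) ∧
      ∀ x, g x ∉ segs d → ∃ α, x (j α) ≠ 0 ∧ g x ∈ A α := by
  classical
  -- the injection of the set of nodes in `Γ`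
  obtain ⟨ι, hι⟩ : ∃ ι : List Γ → Γ, Function.Injective ι := by
    have h := Cardinal.mk_list_eq_mk Γ
    obtain ⟨e⟩ := Cardinal.eq.1 h
    exact ⟨e, e.injective⟩
  obtain ⟨π, hπ⟩ : ∃ π : Γ → ℕ × ℕ, Function.Surjective π := by
    obtain ⟨e⟩ : Nonempty (ℕ × ℕ ↪ Γ) := by
      have e1 : ℕ × ℕ ≃ ℕ := Denumerable.eqv _
      exact ⟨e1.toEmbedding.trans (Infinite.natEmbedding Γ)⟩
    exact ⟨Function.invFun e, Function.invFun_surjective e.injective⟩
  -- the power map
  obtain ⟨k, hk, J, hJ, hJk⟩ := exists_power_map (Γ := Γ) p hp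
  set b : ℝ := 1 / 16 with hb
  set q : ℝ := b ^ k with hq
  have hb0 : 0 < b := by norm_num [hb]
  have hq0 : 0 < q := by positivity
  have hq1 : q ≤ 1 / 16 := by
    calc q = b ^ k := rfl
      _ ≤ b ^ 1 := pow_le_pow_of_le_one hb0.le (by norm_num [hb]) hk
      _ = 1 / 16 := by rw [pow_one]
  obtain ⟨ε, hε0, hεa, hεt, hε⟩ := exists_eps (H := lp (fun _ : Γ => ℝ) 2) q hq0
  set δ : ℕ → ℝ := fun m => ε (m + 3) / 2 with hδ
  have hδ0 : ∀ m, 0 < δ m := fun m => by
    have := hε0 (m + 3)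
    simp only [hδ]
    positivity
  have hδt : Tendsto δ atTop (𝓝 0) := by
    have h1 := (hεt.comp (tendsto_add_atTop_nat 3)).div_const 2
    simpa using h1
  -- the analytic sets and their parametrizations
  have hAne : ∀ α, (A α).Nonempty := fun α =>
    ⟨d 0, hA2 α (mem_iUnion.2 ⟨(0, 0), left_mem_segment _ _ _⟩)⟩
  have hpar := fun α => exists_param d hd δ hδ0 (A α) (hA1 α) (hAne α)
  choose κ G hκ hG hGr using hpar
  choose zz hzz using exists_branch (Γ := Γ)
  set Y : List Γ → F := fun t => approx d κ π t.length (zz t) with hYdef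
  have hYres : ∀ (z : ℕ → Γ) (n : ℕ), Y (PiNat.res z n) = approx d κ π n z := by
    intro z n
    simp only [hYdef]
    rw [PiNat.res_length]
    have h1 := hzz (PiNat.res z n)
    rw [PiNat.res_length, PiNat.res_eq_res] at h1
    match n, h1 with
    | 0, _ => rfl
    | 1, _ => rfl
    | n + 2, h1 =>
      simp only [approx]
      rw [h1 (show 0 < n + 2 by omega)]
      congr 1
      refine hκ _ _ _ _ fun i hi => ?_
      rw [h1 (show i + 1 < n + 2 by omega)]
  have hYlim : ∀ z : ℕ → Γ, Tendsto (fun n => Y (PiNat.res z n)) atTop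
      (𝓝 (G (z 0) fun i => π (z (i + 1)))) := by
    intro z
    rw [← tendsto_add_atTop_iff_nat 2]
    rw [tendsto_iff_dist_tendsto_zero]
    refine squeeze_zero (fun n => dist_nonneg) (fun n => ?_) hδt
    rw [hYres, dist_comm]
    exact hG _ _ n
  have hY0 : Y [] = 0 := rfl
  have hYstep : ∀ (a : Γ) (s : List Γ), 2 ≤ s.length → ‖Y (a :: s) - Y s‖ ≤ ε (s.length + 1) := by
    intro a s hs
    have h1 := hzz (a :: s)
    rw [List.length_cons, PiNat.res_succ] at h1
    obtain ⟨h2, h3⟩ := List.cons.inj h1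
    set z := zz (a :: s) with hz
    obtain ⟨m, hm⟩ : ∃ m, s.length = m + 2 := ⟨s.length - 2, by omega⟩
    have h4 : Y (a :: s) = approx d κ π (m + 3) z := by
      have := hYres z (s.length + 1)
      rw [PiNat.res_succ, h2, h3, hm] at this
      exact this
    have h5 : Y s = approx d κ π (m + 2) z := by
      have := hYres z s.length
      rw [h3, hm] at this
      exact this
    rw [h4, h5, hm]
    simp only [approx]
    set ζ : ℕ → ℕ × ℕ := fun i => π (z (i + 1)) with hζ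
    have h6 := hG (z 0) ζ (m + 1)
    have h7 := hG (z 0) ζ m
    have h8 : ε (m + 1 + 3) ≤ ε (m + 3) := hεa (by omega)
    rw [← dist_eq_norm]
    calc dist (d (κ (z 0) ζ (m + 1))) (d (κ (z 0) ζ m))
        ≤ dist (G (z 0) ζ) (d (κ (z 0) ζ (m + 1))) + dist (G (z 0) ζ) (d (κ (z 0) ζ m)) :=
          dist_triangle_left _ _ _
      _ ≤ ε (m + 1 + 3) / 2 + ε (m + 3) / 2 := add_le_add h6 h7
      _ ≤ ε (m + 2 + 1) := by
          have : m + 2 + 1 = m + 3 := by omega
          rw [this]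
          linarith
  have hYmem : ∀ t, ∃ i, Y t = d i := by
    intro t
    have h : ∀ n z, ∃ i, approx d κ π n z = d i := by
      intro n z
      match n with
      | 0 => exact ⟨0, hd0.symm⟩
      | 1 => exact ⟨0, hd0.symm⟩
      | n + 2 => exact ⟨_, rfl⟩
    exact h _ _
  -- the tree map
  obtain ⟨g₂, hg1, hg2, hg3, hg4⟩ := tree_map (P := pt 2 ι q) (Y := Y) hq0 hq1
    (fun s t hst hlen => norm_pt_sub 2 ι hι hq0.le hst hlen)
    (fun a s => (norm_pt_cons 2 ι hq0.le a s).le) ε hε hY0 hYstep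
  refine ⟨fun x => g₂ (J x), fun α => ι [α], ?_, hg1.comp hJ, ?_, ?_, ?_⟩
  · intro α β h
    have := hι h
    simpa using this
  · -- rank at most one
    intro x
    obtain ⟨w, hw⟩ := hg4 (J x)
    refine ⟨w, fun h => ?_⟩
    obtain ⟨c, hc⟩ := hw (fderiv ℝ J x h)
    refine ⟨c, ?_⟩
    have h1 : fderiv ℝ (fun x => g₂ (J x)) x = (fderiv ℝ g₂ (J x)).comp (fderiv ℝ J x) :=
      fderiv_comp x ((hg1.differentiable (by simp)) (J x)) ((hJ.differentiable (by simp)) x)
    rw [h1, ContinuousLinearMap.comp_apply, hc]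
  · -- surjectivity
    intro y
    obtain ⟨α, hα⟩ : ∃ α, y ∈ A α := by
      rw [← mem_iUnion, hA3]
      exact mem_univ y
    rw [← hGr α] at hα
    obtain ⟨ζ, hζ⟩ := hα
    set z : ℕ → Γ := fun n => Nat.casesOn n α (fun i => Function.surjInv hπ (ζ i)) with hz
    have hz1 : (fun i => π (z (i + 1))) = ζ := by
      funext i
      simp only [hz]
      exact Function.surjInv_eq hπ (ζ i)
    refine ⟨fun i => ι (PiNat.res z (i + 1)), fun u hu => ?_⟩
    have hpt : ∀ n, ∑ i ∈ Finset.range n, ser p (fun i => ι (PiNat.res z (i + 1))) i =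
        pt p ι b (PiNat.res z n) := by
      intro n
      induction n with
      | zero => rw [Finset.sum_range_zero, PiNat.res_zero, pt]
      | succ n ih =>
        rw [Finset.sum_range_succ, ih, PiNat.res_succ, pt, PiNat.res_length]
        simp only [ser, PiNat.res_succ, hb]
    simp only [hpt] at hu
    obtain ⟨x, hx, hxn⟩ := exists_limit 2 ι hq0.le hq1 z
    have hJu : J u = x := by
      have h1 : Tendsto (fun n => J (pt p ι b (PiNat.res z n))) atTop (𝓝 (J u)) :=
        (hJ.continuous.tendsto u).comp hu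
      have h2 : ∀ n, J (pt p ι b (PiNat.res z n)) = pt 2 ι q (PiNat.res z n) := by
        intro n
        ext γ
        rw [hJk, hq, pt_pow p ι hι b k (by omega)]
      simp only [h2] at h1
      exact tendsto_nhds_unique h1 hx
    beta_reduce
    rw [hJu]
    refine hg2 z x hxn y ?_
    have h3 := hYlim z
    rw [hz1] at h3
    have h4 : z 0 = α := rfl
    rw [h4, hζ] at h3
    exact h3
  · -- the first coordinate
    intro x₀ hx₀
    rcases hg3 (J x₀) with ⟨s, a, hs⟩ | ⟨z, hz1, hz2⟩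
    · exfalso
      apply hx₀
      obtain ⟨i, hi⟩ := hYmem s
      obtain ⟨j, hj⟩ := hYmem (a :: s)
      rw [hi, hj] at hs
      exact mem_iUnion.2 ⟨(i, j), hs⟩
    · have h1 := hz1 1
      have h2 : PiNat.res z 1 = [z 0] := rfl
      rw [h2] at h1
      have h3 := lp.norm_apply_le_norm (two_ne_zero) (J x₀ - pt 2 ι q [z 0]) (ι [z 0])
      rw [lp.coeFn_sub, Pi.sub_apply, pt_coord 2 ι hι q [z 0] [z 0] (by simp) le_rfl, if_pos rfl,
        hJk, Real.norm_eq_abs] at h3
      have h4 : x₀ (ι [z 0]) ≠ 0 := by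
        intro h
        rw [h, zero_pow (by omega), zero_sub, abs_neg, List.length_singleton, pow_one,
          abs_of_pos hq0] at h3
        rw [pow_one] at h1
        linarith
      refine ⟨z 0, h4, ?_⟩
      have h6 := tendsto_nhds_unique hz2 (hYlim z)
      beta_reduce
      rw [h6, ← hGr (z 0)]
      exact mem_range_self _

end Main

end Pool.Agent.Y276.SS
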