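import Pool.Agent.Y276.SS.Constr

/-!
Smooth maps of rank at most one from Banach spaces with an uncountable bounded biorthogonal
system with `p`-summable coefficients onto separable Banach spaces of dimension at least two.
-/

set_option autoImplicit false
set_option linter.unusedSectionVars false

open Filter Topology Set MeasureTheory
open scoped ENNReal NNReal ContDiff

namespace Pool.Agent.Y276.SS

universe u v w

/-- The operator attached to a family of functionals with `p`-summable values. -/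
lemma exists_op (p : ℝ≥0∞) [Fact (1 ≤ p)] {Γ : Type u} {E : Type w} [NormedAddCommGroup E]
    [NormedSpace ℝ E] [CompleteSpace E] (f : Γ → StrongDual ℝ E)
    (hf : ∀ x, Memℓp (fun γ => f γ x) p) :
    ∃ T : E →L[ℝ] lp (fun _ : Γ => ℝ) p, ∀ x γ, T x γ = f γ x := by
  let T : E →ₗ[ℝ] lp (fun _ : Γ => ℝ) p :=
    { toFun := fun x => ⟨fun γ => f γ x, hf x⟩
      map_add' := by
        intro x y
        ext γ
        exact map_add (f γ) x y
      map_smul' := by
        intro c x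
        ext γ
        exact map_smul (f γ) c x }
  have hTapp : ∀ x γ, T x γ = f γ x := fun _ _ => rfl
  have hcont : Continuous T := by
    refine LinearMap.continuous_of_seq_closed_graph T fun u x y hu hTu => ?_
    ext γ
    have h1 : Tendsto (fun n => f γ (u n)) atTop (𝓝 (f γ x)) :=
      ((f γ).continuous.tendsto x).comp hu
    have h2 : Tendsto (fun n => f γ (u n)) atTop (𝓝 (y γ)) :=
      ((eval_continuous p γ).tendsto y).comp hTu
    rw [hTapp]
    exact tendsto_nhds_unique h2 h1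
  exact ⟨⟨T, hcont⟩, hTapp⟩

lemma small_index {Γ : Type u} {E : Type w} (D : Set E) (S : E → Set Γ)
    (hS : ∀ x, (S x).Countable) (hD : Cardinal.mk D < Cardinal.continuum) :
    Cardinal.mk ↥(⋃ x ∈ D, S x) < Cardinal.continuum := by
  classical
  have henc : ∀ x, ∃ e : Γ → ℕ, InjOn e (S x) := fun x =>
    countable_iff_exists_injOn.1 (hS x)
  choose e he using henc
  have hmem : ∀ α : ↥(⋃ x ∈ D, S x), ∃ x : D, (α : Γ) ∈ S x := by
    rintro ⟨α, hα⟩
    simp only [mem_iUnion] at hα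
    obtain ⟨x, hx, h⟩ := hα
    exact ⟨⟨x, hx⟩, h⟩
  choose c hc using hmem
  have hinj : Function.Injective fun α : ↥(⋃ x ∈ D, S x) => ((c α, e (c α) α) : D × ℕ) := by
    intro α β h
    simp only [Prod.mk.injEq] at h
    obtain ⟨h1, h2⟩ := h
    have h3 : (β : Γ) ∈ S (c α) := by rw [h1]; exact hc β
    refine Subtype.ext (he (c α) (hc α) h3 ?_)
    rw [h2, h1]
  have h1 : Cardinal.lift.{w} (Cardinal.mk ↥(⋃ x ∈ D, S x)) ≤
      Cardinal.lift.{u} (Cardinal.mk (D × ℕ)) := Cardinal.lift_mk_le'.2 ⟨⟨_, hinj⟩⟩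
  have h2 : Cardinal.mk (D × ℕ) < Cardinal.continuum := by
    rw [Cardinal.mk_prod, Cardinal.lift_uzero, Cardinal.mk_nat, Cardinal.lift_aleph0]
    exact Cardinal.mul_lt_of_lt Cardinal.aleph0_le_continuum hD Cardinal.aleph0_lt_continuum
  have h3 : Cardinal.lift.{u} (Cardinal.mk (D × ℕ)) < Cardinal.continuum := by
    have h2' := Cardinal.lift_lt.{_, u}.2 h2
    rwa [Cardinal.lift_continuum] at h2'
  have h4 : Cardinal.lift.{w} (Cardinal.mk ↥(⋃ x ∈ D, S x)) < Cardinal.continuum := h1.trans_lt h3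
  have h5 : Cardinal.lift.{w} (Cardinal.mk ↥(⋃ x ∈ D, S x)) <
      Cardinal.lift.{w} Cardinal.continuum.{u} := by
    rw [Cardinal.lift_continuum]
    exact h4
  exact Cardinal.lift_lt.1 h5

theorem general (p : ℝ≥0∞) [Fact (1 ≤ p)] (hp : p ≠ ⊤) {Γ : Type u} [Uncountable Γ]
    {E : Type w} [NormedAddCommGroup E] [NormedSpace ℝ E] [CompleteSpace E] (v : Γ → E)
    (f : Γ → StrongDual ℝ E) {C : ℝ} (hC : ∀ γ, ‖v γ‖ ≤ C) (h1 : ∀ γ, f γ (v γ) = 1)
    (h0 : ∀ γ β, γ ≠ β → f γ (v β) = 0) (hf : ∀ x, Memℓp (fun γ => f γ x) p)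
    {F : Type v} [NormedAddCommGroup F] [NormedSpace ℝ F] [CompleteSpace F]
    [SecondCountableTopology F] (hF : 1 < Module.rank ℝ F) :
    ∃ g : E → F, ContDiff ℝ ∞ g ∧ (∀ x, ∃ w : F, ∀ h, ∃ c : ℝ, fderiv ℝ g x h = c • w) ∧
      g '' Metric.closedBall 0 C = univ ∧
      (∀ D : Set E, D.Countable → interior (g '' closure D) = ∅) ∧
      (Cardinal.continuum ≤ Cardinal.mk Γ → ∀ D : Set E, Cardinal.mk D < Cardinal.continuum →
        interior (g '' closure D) = ∅) := by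
  classical
  obtain ⟨T, hT⟩ := exists_op p f hf
  obtain ⟨d, hd, hd0⟩ : ∃ d : ℕ → F, DenseRange d ∧ d 0 = 0 := by
    obtain ⟨d₁, hd₁⟩ := TopologicalSpace.exists_dense_seq F
    refine ⟨fun n => Nat.casesOn n 0 d₁, ?_, rfl⟩
    refine Dense.mono ?_ hd₁
    rintro _ ⟨n, rfl⟩
    exact ⟨n + 1, rfl⟩
  obtain ⟨A, hA1, hA2, hA3, hA4, hA5⟩ : ∃ A : Γ → Set F, (∀ α, AnalyticSet (A α)) ∧
      (∀ α, segs d ⊆ A α) ∧ (⋃ α, A α) = univ ∧
      (∀ Γ₀ : Set Γ, Γ₀.Countable → ∀ U : Set F, IsOpen U → U.Nonempty →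
        ∃ y ∈ U, y ∉ segs d ∧ ∀ α ∈ Γ₀, y ∉ A α) ∧
      (Cardinal.continuum ≤ Cardinal.mk Γ → ∀ Γ₀ : Set Γ,
        Cardinal.mk Γ₀ < Cardinal.continuum → ∀ U : Set F, IsOpen U → U.Nonempty →
        ∃ y ∈ U, y ∉ segs d ∧ ∀ α ∈ Γ₀, y ∉ A α) := by
    by_cases hc : Cardinal.continuum ≤ Cardinal.mk Γ
    · obtain ⟨A, hA1, hA2, hA3, hA4⟩ := exists_family2 hc hF d hd
      refine ⟨A, hA1, hA2, hA3, fun Γ₀ hΓ₀ => hA4 Γ₀ ?_, fun _ => hA4⟩
      exact (Cardinal.mk_le_aleph0_iff.2 (countable_coe_iff.2 hΓ₀)).trans_lt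
        Cardinal.aleph0_lt_continuum
    · obtain ⟨r, hr⟩ : ∃ r : Γ → ℝ, Function.Injective r := by
        have h : Cardinal.lift.{0} (Cardinal.mk Γ) ≤ Cardinal.lift.{u} (Cardinal.mk ℝ) := by
          rw [Cardinal.mk_real, Cardinal.lift_continuum, Cardinal.lift_uzero]
          exact (not_le.1 hc).le
        obtain ⟨e⟩ := Cardinal.lift_mk_le'.1 h
        exact ⟨e, e.injective⟩
      obtain ⟨A, hA1, hA2, hA3, hA4⟩ := exists_family r hr hF d hd
      exact ⟨A, hA1, hA2, hA3, hA4, fun h => absurd h hc⟩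
  have hinf : Infinite Γ := inferInstance
  obtain ⟨g, j, hj, hg1, hg2, hg3, hg4⟩ := main_construction p hp d hd hd0 A hA1 hA2 hA3
  have hp0 : 0 < p.toReal := ENNReal.toReal_pos (zero_lt_one.trans_le Fact.out).ne' hp
  have hsupp : ∀ x : E, {α | f (j α) x ≠ 0}.Countable := by
    intro x
    have hs : {γ | f γ x ≠ 0}.Countable := by
      refine ((hf x).summable hp0).countable_support.mono fun γ hγ => ?_
      have hγ' : 0 < ‖f γ x‖ := norm_pos_iff.2 hγ
      rw [Function.mem_support]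
      positivity
    exact hs.preimage_of_injOn (f := j) hj.injOn
  have key : ∀ (D : Set E) (y : F), y ∉ segs d →
      (∀ α ∈ (⋃ x ∈ D, {α | f (j α) x ≠ 0}), y ∉ A α) → y ∉ (fun x => g (T x)) '' closure D := by
    rintro D y hy hyA ⟨x, hx, rfl⟩
    obtain ⟨α, hα, hgA⟩ := hg4 (T x) hy
    refine hyA α ?_ hgA
    rw [hT] at hα
    by_contra hcon
    apply hα
    have hzero : ∀ x' ∈ D, f (j α) x' = 0 := by
      intro x' hx'
      by_contra h
      exact hcon (mem_biUnion hx' h)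
    have hcl : IsClosed {x' : E | f (j α) x' = 0} :=
      isClosed_eq (f (j α)).continuous continuous_const
    exact closure_minimal (fun x' hx' => hzero x' hx') hcl hx
  refine ⟨fun x => g (T x), hg1.comp T.contDiff, ?_, ?_, ?_, ?_⟩
  · intro x
    obtain ⟨w, hw⟩ := hg2 (T x)
    refine ⟨w, fun h => ?_⟩
    obtain ⟨c, hc⟩ := hw (T h)
    refine ⟨c, ?_⟩
    have h2 : fderiv ℝ (fun x => g (T x)) x = (fderiv ℝ g (T x)).comp T := by
      have := fderiv_comp x ((hg1.differentiable (by simp)) (T x)) T.differentiableAt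
      rw [T.fderiv] at this
      exact this
    rw [h2, ContinuousLinearMap.comp_apply, hc]
  · rw [eq_univ_iff_forall]
    intro y
    obtain ⟨γ, hγ⟩ := hg3 y
    have hC0 : 0 ≤ C := by
      obtain ⟨β⟩ : Nonempty Γ := inferInstance
      exact (norm_nonneg _).trans (hC β)
    have hgeo : Summable fun i : ℕ => C * (1 / 16 : ℝ) ^ (i + 1) :=
      ((summable_nat_add_iff 1).2 (summable_geometric_of_lt_one (by norm_num)
        (by norm_num : (1 / 16 : ℝ) < 1))).mul_left C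
    have hnb : ∀ i : ℕ, ‖((1 / 16 : ℝ) ^ (i + 1)) • v (γ i)‖ ≤ C * (1 / 16 : ℝ) ^ (i + 1) := by
      intro i
      rw [norm_smul, Real.norm_of_nonneg (by positivity), mul_comm]
      gcongr
      exact hC _
    have hsum : Summable fun i : ℕ => ((1 / 16 : ℝ) ^ (i + 1)) • v (γ i) :=
      Summable.of_norm_bounded hgeo hnb
    refine ⟨∑' i : ℕ, ((1 / 16 : ℝ) ^ (i + 1)) • v (γ i), ?_, ?_⟩
    · rw [mem_closedBall_zero_iff]
      have h2 : ‖∑' i : ℕ, ((1 / 16 : ℝ) ^ (i + 1)) • v (γ i)‖ ≤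
          ∑' i : ℕ, C * (1 / 16 : ℝ) ^ (i + 1) := tsum_of_norm_bounded hgeo.hasSum hnb
      refine h2.trans ?_
      have h3 : ∀ i : ℕ, C * (1 / 16 : ℝ) ^ (i + 1) ≤ C * (1 / 2) ^ (i + 1) := by
        intro i
        gcongr
        norm_num
      have h4 : HasSum (fun i : ℕ => C * (1 / 2 : ℝ) ^ (i + 1)) (C * 1) := by
        have := (hasSum_geometric_two' (1 : ℝ)).mul_left C
        refine this.congr_fun ?_
        intro i
        have h6 : (1 / 2 : ℝ) ^ i = 1 / 2 ^ i := one_div_pow 2 i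
        rw [pow_succ, h6]
        ring
      have h5 := hgeo.hasSum
      have := hasSum_le h3 h5 h4
      linarith
    · refine hγ _ ?_
      have h2 := hsum.hasSum.tendsto_sum_nat
      have h3 := (T.continuous.tendsto _).comp h2
      refine h3.congr fun n => ?_
      rw [Function.comp_apply, map_sum]
      refine Finset.sum_congr rfl fun i _ => ?_
      rw [map_smul, ser]
      ext β
      rw [lp.coeFn_smul, Pi.smul_apply, hT, smul_eq_mul]
      by_cases hβ : β = γ i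
      · subst hβ
        rw [h1, mul_one, lp.single_apply_self]
      · rw [h0 _ _ hβ, mul_zero, lp.single_apply_ne _ _ _ hβ]
  · intro D hD
    by_contra hne
    obtain ⟨y, hyU, hy1, hy2⟩ := hA4 (⋃ x ∈ D, {α | f (j α) x ≠ 0})
      (hD.biUnion fun x _ => hsupp x) _ isOpen_interior (nonempty_iff_ne_empty.2 hne)
    exact key D y hy1 hy2 (interior_subset hyU)
  · intro hc D hD
    by_contra hne
    obtain ⟨y, hyU, hy1, hy2⟩ := hA5 hc (⋃ x ∈ D, {α | f (j α) x ≠ 0})
      (small_index D (fun x => {α | f (j α) x ≠ 0}) hsupp hD) _ isOpen_interior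
      (nonempty_iff_ne_empty.2 hne)
    exact key D y hy1 hy2 (interior_subset hyU)

/-- Onto spaces of dimension at most one. -/
theorem low {E : Type w} [NormedAddCommGroup E] [NormedSpace ℝ E]
    {F : Type v} [NormedAddCommGroup F] [NormedSpace ℝ F] (hF : Module.rank ℝ F ≤ 1)
    (g : E → F) (hg : Continuous g) (hs : Function.Surjective g) :
    ∃ Y : Submodule ℝ E, TopologicalSpace.SeparableSpace Y ∧
      Function.Surjective (fun y : Y => g (y : E)) := by
  obtain ⟨v₀, hv₀⟩ := rank_le_one_iff.1 hF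
  by_cases hz : v₀ = 0
  · refine ⟨⊥, inferInstance, fun y => ⟨0, ?_⟩⟩
    obtain ⟨r, hr⟩ := hv₀ y
    obtain ⟨r', hr'⟩ := hv₀ (g ((0 : (⊥ : Submodule ℝ E)) : E))
    beta_reduce
    rw [← hr, ← hr', hz, smul_zero, smul_zero]
  have hx : ∀ n : ℤ, ∃ x : E, g x = (n : ℝ) • v₀ := fun n => hs _
  choose x hx using hx
  set Y : Submodule ℝ E := Submodule.span ℝ (range x) with hY
  have hYsep : TopologicalSpace.IsSeparable (Y : Set E) :=
    TopologicalSpace.IsSeparable.span (R := ℝ) (countable_range x).isSeparable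
  refine ⟨Y, hYsep.separableSpace, fun y => ?_⟩
  obtain ⟨r, hr⟩ := hv₀ y
  obtain ⟨ψ, _, hψ⟩ := exists_dual_vector ℝ v₀ (norm_ne_zero_iff.2 hz)
  have hn0 : 0 < ‖v₀‖ := norm_pos_iff.2 hz
  have hψ' : ψ v₀ = ‖v₀‖ := by simpa using hψ
  have hmem : ∀ n : ℤ, x n ∈ Y := fun n => Submodule.subset_span (mem_range_self n)
  have hcont : Continuous fun y : Y => ψ (g (y : E)) :=
    ψ.continuous.comp (hg.comp continuous_subtype_val)
  have hval : ∀ n : ℤ, ψ (g (x n)) = n * ‖v₀‖ := by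
    intro n
    rw [hx, map_smul, hψ', smul_eq_mul]
  have hr1 : r * ‖v₀‖ ∈ range fun y : Y => ψ (g (y : E)) := by
    refine mem_range_of_exists_le_of_exists_ge hcont ⟨⟨x ⌊r⌋, hmem _⟩, ?_⟩ ⟨⟨x ⌈r⌉, hmem _⟩, ?_⟩
    · beta_reduce
      rw [hval]
      gcongr
      exact Int.floor_le r
    · beta_reduce
      rw [hval]
      gcongr
      exact Int.le_ceil r
  obtain ⟨s, hs2⟩ := hr1
  refine ⟨s, ?_⟩
  obtain ⟨r', hr'⟩ := hv₀ (g (s : E))
  beta_reduce at hs2 ⊢
  rw [← hr', map_smul, hψ', smul_eq_mul] at hs2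
  have : r' = r := mul_right_cancel₀ hn0.ne' hs2
  rw [← hr', ← hr, this]

end Pool.Agent.Y276.SS
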